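import Mathlib
import Pool.Agent.H83XR.Rot

/-!
# Convex drawings of complete graphs: an exponential Erdos-Szekeres theorem (MP_f6df18_co)

Definitions used by all modules `CV21/*`, and the plan.

`pos v x` is the position of the edge `vx` in a counterclockwise list of the edges at `v`
(`H83XR.IsRotation`, `H83XR.Ccw`, `H83XR.Realizable`, `H83XR.Crossed`, `H83XR.Uncrossed`).

PLAN.  Fix a vertex `o` and list the others by `pos o`.  A pair `a < b` is BLUE if a vertex on the
left side of the triangle `o a b` (the side of the sector from `oa` to `ob`) sends an edge across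
that triangle.  Blue is transitive; a set of vertices all of whose pairs are blue is in convex
position.  A set with no blue pair is described by signs `σ a b c` (`a < b < c`;
`σ a b c` iff `ob` crosses `ac`) with the rules `RS`.  Call `a, d` a closing if there are
`a < b < c < d` with `σ a b c, ¬ σ a b d, ¬ σ a c d, σ b c d`.  The closings form a capped graph
(if `ac` and `bd` are closings, `a < b < c < d`, then so is `ad`), pairwise closing vertices have
all signs `-`, capped graphs with clique number `w + 1` are `8 ^ w`-colourable, and a set without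
closings obeys the cups-caps theorem.
-/

namespace CV21

open H83XR

/-- Exactly two of the three edges `da`, `db`, `dc` leave `a`, `b`, `c` into the left side of the
directed triangle `abc`: the vertex `d` lies on the left side of the triangle and one of these
three edges crosses the triangle. -/
def Exits {V : Type*} (pos : V → V → ℕ) (a b c d : V) : Prop :=
  (Ccw pos a b d c ∧ Ccw pos b c d a ∧ ¬ Ccw pos c a d b) ∨
  (Ccw pos a b d c ∧ ¬ Ccw pos b c d a ∧ Ccw pos c a d b) ∨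
  (¬ Ccw pos a b d c ∧ Ccw pos b c d a ∧ Ccw pos c a d b)

/-- No triangle `abc` has a vertex on its left side and a vertex on its right side which both send
an edge across the triangle. -/
def Convex {V : Type*} (pos : V → V → ℕ) : Prop :=
  ∀ a b c d e : V, a ≠ b → a ≠ c → b ≠ c → d ≠ a → d ≠ b → d ≠ c → e ≠ a → e ≠ b → e ≠ c →
    ¬ (Exits pos a b c d ∧ Exits pos a c b e)

/-- The rules for the signs of a set without blue pairs. -/
structure RS (S : Finset ℕ) (σ : ℕ → ℕ → ℕ → Prop) : Prop where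
  mono : ∀ a ∈ S, ∀ b ∈ S, ∀ c ∈ S, ∀ d ∈ S, a < b → b < c → c < d →
    ¬ (σ a b d ↔ σ a c d) → (σ a b c ↔ σ a b d) ∧ (σ b c d ↔ σ a c d)
  hat : ∀ a ∈ S, ∀ b ∈ S, ∀ c ∈ S, ∀ d ∈ S, a < b → b < c → c < d →
    ¬ (¬ σ a b c ∧ σ a b d ∧ σ a c d ∧ ¬ σ b c d)
  c1 : ∀ a ∈ S, ∀ b ∈ S, ∀ c ∈ S, ∀ d ∈ S, ∀ e ∈ S, a < b → b < c → c < d → d < e →
    σ a b c → ¬ σ a b d → σ b c d → σ b d e
  c3 : ∀ a ∈ S, ∀ b ∈ S, ∀ c ∈ S, ∀ d ∈ S, ∀ e ∈ S, a < b → b < c → c < d → d < e →
    σ a b c → ¬ σ a b e → σ b c e → ¬ σ a d e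
  c4 : ∀ a ∈ S, ∀ b ∈ S, ∀ c ∈ S, ∀ d ∈ S, ∀ e ∈ S, a < b → b < c → c < d → d < e →
    σ a b e → σ a c d → ¬ σ a c e → ¬ σ c d e
  c6 : ∀ a ∈ S, ∀ b ∈ S, ∀ c ∈ S, ∀ d ∈ S, ∀ e ∈ S, a < b → b < c → c < d → d < e →
    σ a b d → ¬ σ a b e → σ b d e → ¬ σ a c e

/-- `a, d` is a closing. -/
def Clo (S : Finset ℕ) (σ : ℕ → ℕ → ℕ → Prop) (a d : ℕ) : Prop :=
  ∃ b ∈ S, ∃ c ∈ S, a < b ∧ b < c ∧ c < d ∧ σ a b c ∧ ¬ σ a b d ∧ ¬ σ a c d ∧ σ b c d

/-- `S` with the pairs `E a b` (`a < b`) is a capped ordered graph. -/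
def Capped (S : Finset ℕ) (E : ℕ → ℕ → Prop) : Prop :=
  ∀ a ∈ S, ∀ b ∈ S, ∀ c ∈ S, ∀ d ∈ S, a < b → b < c → c < d → E a c → E b d → E a d

/-- All pairs of `Q` are edges. -/
def Cliq (Q : Finset ℕ) (E : ℕ → ℕ → Prop) : Prop := ∀ a ∈ Q, ∀ b ∈ Q, a < b → E a b

end CV21
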