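import Mathlib
import Pool.Agent.CV21.Defs
import Pool.Agent.H83XR.Main

/-!
# Orientations relative to a fixed vertex
-/

namespace CV21

open H83XR

variable {V : Type*} {pos : V → V → ℕ}

theorem ccw_swap' (hp : IsRotation pos) {v x y z : V} (hx : x ≠ v) (hy : y ≠ v) (hz : z ≠ v)
    (hxy : x ≠ y) (hyz : y ≠ z) (hxz : x ≠ z) : Ccw pos v x z y ↔ ¬ Ccw pos v x y z :=
  ccw_swap hp hx hy hz hxy hyz hxz

/-- The orientation of `x, y, z` at `v` from the orientations with `o`. -/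
theorem ccw_T (hp : IsRotation pos) {o v x y z : V} (ho : o ≠ v) (hx : x ≠ v) (hy : y ≠ v)
    (hz : z ≠ v) (hox : o ≠ x) (hoy : o ≠ y) (hoz : o ≠ z) (hxy : x ≠ y) (hyz : y ≠ z)
    (hxz : x ≠ z) :
    Ccw pos v x y z ↔ (Ccw pos v o x y ↔ (Ccw pos v o y z ↔ Ccw pos v o x z)) := by
  have a1 : pos v o ≠ pos v x := fun h => hox (hp v o x ho hx h)
  have a2 : pos v o ≠ pos v y := fun h => hoy (hp v o y ho hy h)
  have a3 : pos v o ≠ pos v z := fun h => hoz (hp v o z ho hz h)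
  have a4 : pos v x ≠ pos v y := fun h => hxy (hp v x y hx hy h)
  have a5 : pos v y ≠ pos v z := fun h => hyz (hp v y z hy hz h)
  have a6 : pos v x ≠ pos v z := fun h => hxz (hp v x z hx hz h)
  by_cases h1 : Ccw pos v o x y <;> by_cases h2 : Ccw pos v o y z <;>
    by_cases h3 : Ccw pos v o x z <;>
    simp only [h1, h2, h3, iff_true, iff_false, not_true] <;>
    unfold Ccw at * <;> omega

/-- The orientations with `o` come from a linear order. -/
theorem T_cons (hp : IsRotation pos) {o v x y z : V} (ho : o ≠ v) (hx : x ≠ v) (hy : y ≠ v)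
    (hz : z ≠ v) (hox : o ≠ x) (hoy : o ≠ y) (hoz : o ≠ z) (hxy : x ≠ y) (hyz : y ≠ z)
    (hxz : x ≠ z) :
    ¬ (Ccw pos v o x y ∧ Ccw pos v o y z ∧ ¬ Ccw pos v o x z) ∧
    ¬ (¬ Ccw pos v o x y ∧ ¬ Ccw pos v o y z ∧ Ccw pos v o x z) := by
  have a1 : pos v o ≠ pos v x := fun h => hox (hp v o x ho hx h)
  have a2 : pos v o ≠ pos v y := fun h => hoy (hp v o y ho hy h)
  have a3 : pos v o ≠ pos v z := fun h => hoz (hp v o z ho hz h)
  have a4 : pos v x ≠ pos v y := fun h => hxy (hp v x y hx hy h)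
  have a5 : pos v y ≠ pos v z := fun h => hyz (hp v y z hy hz h)
  have a6 : pos v x ≠ pos v z := fun h => hxz (hp v x z hx hz h)
  constructor
  · rintro ⟨h1, h2, h3⟩; unfold Ccw at *; omega
  · rintro ⟨h1, h2, h3⟩; unfold Ccw at *; omega

/-- The orientations at the other three vertices. -/
theorem T_par (hp : IsRotation pos) (hr : Realizable pos) {o x y z : V} (hx : x ≠ o) (hy : y ≠ o)
    (hz : z ≠ o) (h1 : pos o x < pos o y) (h2 : pos o y < pos o z) :
    Ccw pos x o y z ↔ (Ccw pos y o x z ↔ Ccw pos z o x y) := by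
  have hxy : x ≠ y := fun h => by rw [h] at h1; exact lt_irrefl _ h1
  have hyz : y ≠ z := fun h => by rw [h] at h2; exact lt_irrefl _ h2
  have hxz : x ≠ z := fun h => by rw [h] at h1; exact lt_asymm h1 h2
  have h := parity hp hr hx.symm hy.symm hz.symm hxy hxz hyz
  have h3 : Ccw pos o x y z := Or.inl ⟨h1, h2⟩
  simpa only [h3, true_iff] using h

/-- `Exits` for a triangle with the vertex `o`. -/
theorem exits_T (hp : IsRotation pos) {o x y z : V} (hx : x ≠ o) (hy : y ≠ o) (hz : z ≠ o)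
    (hxy : x ≠ y) (hyz : y ≠ z) (hxz : x ≠ z) :
    Exits pos o x y z ↔ (Ccw pos o x z y ∧ (Ccw pos x o y z ↔ Ccw pos y o x z)) ∨
      (¬ Ccw pos o x z y ∧ Ccw pos x o y z ∧ ¬ Ccw pos y o x z) := by
  have e1 : Ccw pos x y z o ↔ Ccw pos x o y z := by unfold Ccw; omega
  have e2 : Ccw pos y o z x ↔ ¬ Ccw pos y o x z :=
    ccw_swap' hp hy.symm hxy hyz.symm hx.symm hxz hz.symm
  unfold Exits
  rw [e1, e2]
  tauto

end CV21
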