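import Mathlib
import Pool.Agent.CV21.Sign

/-!
# Blue pairs are transitive
-/

namespace CV21

open H83XR

variable {V : Type*} {pos : V → V → ℕ}

/-- All facts about the orientations of four vertices `p, q, r, s` in this order around `o`. -/
theorem facts4 (hp : IsRotation pos) (hr : Realizable pos) {o p q r s : V} (hpo : p ≠ o)
    (hqo : q ≠ o) (hro : r ≠ o) (hso : s ≠ o) (h1 : pos o p < pos o q) (h2 : pos o q < pos o r)
    (h3 : pos o r < pos o s) :
    ((Ccw pos p o q r ↔ (Ccw pos q o p r ↔ Ccw pos r o p q)) ∧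
      (Ccw pos p o q s ↔ (Ccw pos q o p s ↔ Ccw pos s o p q)) ∧
      (Ccw pos p o r s ↔ (Ccw pos r o p s ↔ Ccw pos s o p r)) ∧
      (Ccw pos q o r s ↔ (Ccw pos r o q s ↔ Ccw pos s o q r))) ∧
    ((¬ (Ccw pos p o q r ∧ Ccw pos p o r s ∧ ¬ Ccw pos p o q s) ∧
      ¬ (¬ Ccw pos p o q r ∧ ¬ Ccw pos p o r s ∧ Ccw pos p o q s)) ∧
    (¬ (Ccw pos q o p r ∧ Ccw pos q o r s ∧ ¬ Ccw pos q o p s) ∧
      ¬ (¬ Ccw pos q o p r ∧ ¬ Ccw pos q o r s ∧ Ccw pos q o p s)) ∧
    (¬ (Ccw pos r o p q ∧ Ccw pos r o q s ∧ ¬ Ccw pos r o p s) ∧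
      ¬ (¬ Ccw pos r o p q ∧ ¬ Ccw pos r o q s ∧ Ccw pos r o p s)) ∧
    (¬ (Ccw pos s o p q ∧ Ccw pos s o q r ∧ ¬ Ccw pos s o p r) ∧
      ¬ (¬ Ccw pos s o p q ∧ ¬ Ccw pos s o q r ∧ Ccw pos s o p r))) := by
  have hpq : p ≠ q := fun h => by rw [h] at h1; omega
  have hqr : q ≠ r := fun h => by rw [h] at h2; omega
  have hrs : r ≠ s := fun h => by rw [h] at h3; omega
  have hpr : p ≠ r := fun h => by rw [h] at h1; omega
  have hqs : q ≠ s := fun h => by rw [h] at h2; omega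
  have hps : p ≠ s := fun h => by rw [h] at h1; omega
  refine ⟨⟨T_par hp hr hpo hqo hro h1 h2, T_par hp hr hpo hqo hso h1 (h2.trans h3),
    T_par hp hr hpo hro hso (h1.trans h2) h3, T_par hp hr hqo hro hso h2 h3⟩, ?_, ?_, ?_, ?_⟩
  · exact T_cons hp hpo.symm hpq.symm hpr.symm hps.symm hqo.symm hro.symm hso.symm hqr hrs hqs
  · exact T_cons hp hqo.symm hpq hqr.symm hqs.symm hpo.symm hro.symm hso.symm hpr hrs hps
  · exact T_cons hp hro.symm hpr hqr hrs.symm hpo.symm hqo.symm hso.symm hpq hqs hps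
  · exact T_cons hp hso.symm hps hqs hrs hpo.symm hqo.symm hro.symm hpq hqr hpr

theorem blue5 (hp : IsRotation pos) (hr : Realizable pos) {o a b c d : V} (ha : a ≠ o)
    (hb : b ≠ o) (hc : c ≠ o) (hd : d ≠ o) (hda : d ≠ a) (hdb : d ≠ b) (hdc : d ≠ c)
    (hab : pos o a < pos o b) (hbc : pos o b < pos o c)
    (h1 : Exits pos o a b d) (h2 : ¬ Exits pos o c b a) (h3 : ¬ Exits pos o c b d)
    (h4 : ¬ Exits pos o a c b) (h5 : ¬ Exits pos o a c d) : False := by
  have nab : a ≠ b := fun h => by rw [h] at hab; omega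
  have nbc : b ≠ c := fun h => by rw [h] at hbc; omega
  have nac : a ≠ c := fun h => by rw [h] at hab; omega
  rw [exits_T hp ha hb hd nab hdb.symm hda.symm] at h1
  rw [exits_T hp hc hb ha nbc.symm nab.symm nac.symm] at h2
  rw [exits_T hp hc hb hd nbc.symm hdb.symm hdc.symm] at h3
  rw [exits_T hp ha hc hb nac nbc.symm nab] at h4
  rw [exits_T hp ha hc hd nac hdc.symm hda.symm] at h5
  have w1 : Ccw pos c o b a ↔ ¬ Ccw pos c o a b :=
    ccw_swap' hp hc.symm nac nbc ha.symm nab hb.symm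
  have w2 : Ccw pos b o c a ↔ ¬ Ccw pos b o a c :=
    ccw_swap' hp hb.symm nab nbc.symm ha.symm nac hc.symm
  have w3 : Ccw pos a o c b ↔ ¬ Ccw pos a o b c :=
    ccw_swap' hp ha.symm nab.symm nac.symm hb.symm nbc hc.symm
  have w4 : Ccw pos c o d b ↔ ¬ Ccw pos c o b d :=
    ccw_swap' hp hc.symm nbc hdc hb.symm hdb.symm hd.symm
  have w5 : Ccw pos b o d c ↔ ¬ Ccw pos b o c d :=
    ccw_swap' hp hb.symm nbc.symm hdb hc.symm hdc.symm hd.symm
  have w6 : Ccw pos a o d b ↔ ¬ Ccw pos a o b d :=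
    ccw_swap' hp ha.symm nab.symm hda hb.symm hdb.symm hd.symm
  have w7 : Ccw pos a o d c ↔ ¬ Ccw pos a o c d :=
    ccw_swap' hp ha.symm nac.symm hda hc.symm hdc.symm hd.symm
  have w8 : Ccw pos b o d a ↔ ¬ Ccw pos b o a d :=
    ccw_swap' hp hb.symm nab hdb ha.symm hda.symm hd.symm
  have w9 : Ccw pos c o d a ↔ ¬ Ccw pos c o a d :=
    ccw_swap' hp hc.symm nac hdc ha.symm hda.symm hd.symm
  have k2 : Ccw pos o c a b := by unfold Ccw; omega
  have k4 : ¬ Ccw pos o a b c → False := by unfold Ccw; omega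
  have hne1 : pos o d ≠ pos o a := fun h => hda (hp o d a hd ha h)
  have hne2 : pos o d ≠ pos o b := fun h => hdb (hp o d b hd hb h)
  have hne3 : pos o d ≠ pos o c := fun h => hdc (hp o d c hd hc h)
  rcases lt_or_gt_of_ne hne1 with g1 | g1
  · -- d < a
    have f := facts4 hp hr hd ha hb hc g1 hab hbc
    have k1 : ¬ Ccw pos o a d b := by unfold Ccw; omega
    have k3 : Ccw pos o c d b := by unfold Ccw; omega
    have k5 : ¬ Ccw pos o a d c := by unfold Ccw; omega
    grind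
  · rcases lt_or_gt_of_ne hne2 with g2 | g2
    · -- a < d < b
      have f := facts4 hp hr ha hd hb hc g1 g2 hbc
      have k1 : Ccw pos o a d b := by unfold Ccw; omega
      have k3 : Ccw pos o c d b := by unfold Ccw; omega
      have k5 : Ccw pos o a d c := by unfold Ccw; omega
      grind
    · rcases lt_or_gt_of_ne hne3 with g3 | g3
      · -- b < d < c
        have f := facts4 hp hr ha hb hd hc hab g2 g3
        have k1 : ¬ Ccw pos o a d b := by unfold Ccw; omega
        have k3 : ¬ Ccw pos o c d b := by unfold Ccw; omega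
        have k5 : Ccw pos o a d c := by unfold Ccw; omega
        grind
      · -- c < d
        have f := facts4 hp hr ha hb hc hd hab hbc g3
        have k1 : ¬ Ccw pos o a d b := by unfold Ccw; omega
        have k3 : Ccw pos o c d b := by unfold Ccw; omega
        have k5 : ¬ Ccw pos o a d c := by unfold Ccw; omega
        grind

theorem blue4 (hp : IsRotation pos) (hr : Realizable pos) {o a b c : V} (ha : a ≠ o)
    (hb : b ≠ o) (hc : c ≠ o) (hab : pos o a < pos o b) (hbc : pos o b < pos o c)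
    (h1 : Exits pos o a b c) (h2 : ¬ Exits pos o c b a) (h4 : ¬ Exits pos o a c b) : False := by
  have nab : a ≠ b := fun h => by rw [h] at hab; omega
  have nbc : b ≠ c := fun h => by rw [h] at hbc; omega
  have nac : a ≠ c := fun h => by rw [h] at hab; omega
  rw [exits_T hp ha hb hc nab nbc nac] at h1
  rw [exits_T hp hc hb ha nbc.symm nab.symm nac.symm] at h2
  rw [exits_T hp ha hc hb nac nbc.symm nab] at h4
  have w1 : Ccw pos c o b a ↔ ¬ Ccw pos c o a b :=
    ccw_swap' hp hc.symm nac nbc ha.symm nab hb.symm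
  have w2 : Ccw pos b o c a ↔ ¬ Ccw pos b o a c :=
    ccw_swap' hp hb.symm nab nbc.symm ha.symm nac hc.symm
  have w3 : Ccw pos a o c b ↔ ¬ Ccw pos a o b c :=
    ccw_swap' hp ha.symm nab.symm nac.symm hb.symm nbc hc.symm
  have f := T_par hp hr ha hb hc hab hbc
  have k1 : ¬ Ccw pos o a c b := by unfold Ccw; omega
  have k2 : Ccw pos o c a b := by unfold Ccw; omega
  have k4 : Ccw pos o a b c := by unfold Ccw; omega
  grind

/-- Blue pairs are transitive. -/
theorem blue_trans (hp : IsRotation pos) (hr : Realizable pos) (hcv : Convex pos) {o a b c : V}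
    (ha : a ≠ o) (hb : b ≠ o) (hc : c ≠ o) (hab : pos o a < pos o b) (hbc : pos o b < pos o c)
    (h1 : ∃ z, z ≠ o ∧ z ≠ a ∧ z ≠ b ∧ Exits pos o a b z)
    (h2 : ∃ z, z ≠ o ∧ z ≠ b ∧ z ≠ c ∧ Exits pos o b c z) :
    ∃ z, z ≠ o ∧ z ≠ a ∧ z ≠ c ∧ Exits pos o a c z := by
  have nab : a ≠ b := fun h => by rw [h] at hab; omega
  have nbc : b ≠ c := fun h => by rw [h] at hbc; omega
  have nac : a ≠ c := fun h => by rw [h] at hab; omega
  by_contra hcon
  push Not at hcon
  obtain ⟨e, he1, he2, he3, he4⟩ := h2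
  obtain ⟨d, hd1, hd2, hd3, hd4⟩ := h1
  have hcb : ∀ x, x ≠ o → x ≠ b → x ≠ c → ¬ Exits pos o c b x := by
    intro x hx1 hx2 hx3 hx4
    exact hcv o b c e x hb.symm hc.symm nbc he1 he2 he3 hx1 hx2 hx3 ⟨he4, hx4⟩
  have h4 := hcon b hb nab.symm nbc
  have h2 := hcb a ha nab nac
  by_cases hdc : d = c
  · subst hdc
    exact blue4 hp hr ha hb hc hab hbc hd4 h2 h4
  · exact blue5 hp hr ha hb hc hd1 hd2 hd3 hdc hab hbc hd4 h2 (hcb d hd1 hd3 hdc) h4
      (hcon d hd1 hd2 hdc)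

/-- Four vertices all of whose pairs have no exits on the right side: convex position. -/
theorem blue_convex (hp : IsRotation pos) (hr : Realizable pos) {o a b c d : V}
    (ha : a ≠ o) (hb : b ≠ o) (hc : c ≠ o) (hd : d ≠ o) (hab : pos o a < pos o b)
    (hbc : pos o b < pos o c) (hcd : pos o c < pos o d)
    (h : ∀ x ∈ ({a, b, c, d} : Set V), ∀ y ∈ ({a, b, c, d} : Set V), pos o x < pos o y →
      ∀ z ∈ ({a, b, c, d} : Set V), z ≠ x → z ≠ y → ¬ Exits pos o y x z) :
    Crossed pos a c b d := by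
  have nab : a ≠ b := fun h => by rw [h] at hab; omega
  have nbc : b ≠ c := fun h => by rw [h] at hbc; omega
  have ncd : c ≠ d := fun h => by rw [h] at hcd; omega
  have nac : a ≠ c := fun h => by rw [h] at hab; omega
  have nbd : b ≠ d := fun h => by rw [h] at hbc; omega
  have nad : a ≠ d := fun h => by rw [h] at hab; omega
  -- each triple is planar with `o`
  have tri : ∀ x ∈ ({a, b, c, d} : Set V), ∀ y ∈ ({a, b, c, d} : Set V),
      ∀ z ∈ ({a, b, c, d} : Set V), x ≠ o → y ≠ o → z ≠ o → pos o x < pos o y →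
      pos o y < pos o z → ¬ Ccw pos x o y z ∧ Ccw pos y o x z ∧ ¬ Ccw pos z o x y := by
    intro x hx y hy z hz hxo hyo hzo hxy hyz
    have nxy : x ≠ y := fun h => by rw [h] at hxy; omega
    have nyz : y ≠ z := fun h => by rw [h] at hyz; omega
    have nxz : x ≠ z := fun h => by rw [h] at hxy; omega
    have g1 := h x hx y hy hxy z hz nxz.symm nyz.symm
    have g2 := h y hy z hz hyz x hx nxy nxz
    have g3 := h x hx z hz (hxy.trans hyz) y hy nxy.symm nyz
    rw [exits_T hp hyo hxo hzo nxy.symm nxz nyz] at g1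
    rw [exits_T hp hzo hyo hxo nyz.symm nxy.symm nxz.symm] at g2
    rw [exits_T hp hzo hxo hyo nxz.symm nxy nyz.symm] at g3
    have w1 : Ccw pos z o y x ↔ ¬ Ccw pos z o x y :=
      ccw_swap' hp hzo.symm nxz nyz hxo.symm nxy hyo.symm
    have w2 : Ccw pos y o z x ↔ ¬ Ccw pos y o x z :=
      ccw_swap' hp hyo.symm nxy nyz.symm hxo.symm nxz hzo.symm
    have w3 : Ccw pos x o z y ↔ ¬ Ccw pos x o y z :=
      ccw_swap' hp hxo.symm nxy.symm nxz.symm hyo.symm nyz hzo.symm
    have f := T_par hp hr hxo hyo hzo hxy hyz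
    have k1 : Ccw pos o y z x := by unfold Ccw; omega
    have k2 : Ccw pos o z x y := by unfold Ccw; omega
    have k3 : ¬ Ccw pos o z y x := by unfold Ccw; omega
    grind
  have ia : a ∈ ({a, b, c, d} : Set V) := by simp
  have ib : b ∈ ({a, b, c, d} : Set V) := by simp
  have ic : c ∈ ({a, b, c, d} : Set V) := by simp
  have id : d ∈ ({a, b, c, d} : Set V) := by simp
  have t1 := tri a ia b ib c ic ha hb hc hab hbc
  have t2 := tri a ia b ib d id ha hb hd hab (hbc.trans hcd)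
  have t3 := tri a ia c ic d id ha hc hd (hab.trans hbc) hcd
  have t4 := tri b ib c ic d id hb hc hd hbc hcd
  rw [crossed_iff2 hp nab nac nad nbc nbd ncd]
  rw [ccw_T hp ha.symm nab.symm nac.symm nad.symm hb.symm hc.symm hd.symm nbc ncd nbd,
    ccw_T hp hb.symm nab nbc.symm nbd.symm ha.symm hc.symm hd.symm nac ncd nad,
    ccw_T hp hc.symm nac nbc ncd.symm ha.symm hb.symm hd.symm nab nbd nad,
    ccw_T hp hd.symm nad nbd ncd ha.symm hb.symm hc.symm nab nbc nac]
  right
  obtain ⟨t11, t12, t13⟩ := t1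
  obtain ⟨t21, t22, t23⟩ := t2
  obtain ⟨t31, t32, t33⟩ := t3
  obtain ⟨t41, t42, t43⟩ := t4
  simp [t11, t12, t13, t21, t22, t23, t31, t32, t33, t41, t42, t43]

end CV21
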