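import Mathlib
import Pool.Agent.CV21.Defs

/-!
# Breadth first search in an ordered graph

`capGraph S E` is the simple graph on `ℕ` whose edges are the pairs `a < b` of elements of `S`
with `E a b`.  `root` is the smallest element of the component, `lev` the distance to it.

* `lev_adj`: adjacent vertices have levels which differ by at most 1 and the same root
  (`SimpleGraph.Adj.reachable`, `SimpleGraph.dist`, triangle inequality on one component).
* `lev_parent`: a vertex of level `i + 1` has a neighbour of level `i`.
* `lev_zero`: a vertex of level 0 is the smallest vertex of its component.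
-/

namespace CV21

/-- The graph on `ℕ` of the edges of `E` inside `S`. -/
def capGraph (S : Finset ℕ) (E : ℕ → ℕ → Prop) : SimpleGraph ℕ where
  Adj a b := a ∈ S ∧ b ∈ S ∧ ((a < b ∧ E a b) ∨ (b < a ∧ E b a))
  symm := ⟨fun _ _ h => ⟨h.2.1, h.1, h.2.2.symm⟩⟩
  loopless := ⟨fun _ h => by rcases h.2.2 with h | h <;> exact lt_irrefl _ h.1⟩

/-- Distances from the smallest vertices of the components. -/
theorem exists_lev (S : Finset ℕ) (E : ℕ → ℕ → Prop) :
    ∃ lev root : ℕ → ℕ,
      (∀ a b, (capGraph S E).Adj a b → lev a ≤ lev b + 1 ∧ root a = root b) ∧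
      (∀ a, lev a ≠ 0 → ∃ b, (capGraph S E).Adj a b ∧ lev b + 1 = lev a) ∧
      (∀ a, root a ≤ a) ∧ (∀ a, lev a = 0 → root a = a) := by
  classical
  set G := capGraph S E with hG
  let root : ℕ → ℕ := fun a => sInf {b | G.Reachable a b}
  have hroot : ∀ a, G.Reachable a (root a) := by
    intro a
    exact Nat.sInf_mem (s := {b | G.Reachable a b}) ⟨a, SimpleGraph.Reachable.refl a⟩
  have hsame : ∀ a b, G.Adj a b → root a = root b := by
    intro a b hab
    have : {c | G.Reachable a c} = {c | G.Reachable b c} := by
      ext c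
      exact ⟨fun h => hab.symm.reachable.trans h, fun h => hab.reachable.trans h⟩
    show sInf _ = sInf _
    rw [this]
  let lev : ℕ → ℕ := fun a => G.dist a (root a)
  have hadj : ∀ a b, G.Adj a b → lev a ≤ lev b + 1 := by
    intro a b hab
    obtain ⟨w, hw⟩ := (hroot b).exists_walk_length_eq_dist
    have hr := hsame a b hab
    have h1 : G.dist a (root b) ≤ (SimpleGraph.Walk.cons hab w).length := SimpleGraph.dist_le _
    rw [SimpleGraph.Walk.length_cons, hw] at h1
    show G.dist a (root a) ≤ G.dist b (root b) + 1
    rw [hr]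
    exact h1
  have step : ∀ a r, G.Reachable a r → G.dist a r ≠ 0 →
      ∃ b, G.Adj a b ∧ G.dist b r + 1 ≤ G.dist a r := by
    intro a r h hne
    obtain ⟨w, hw⟩ := h.exists_walk_length_eq_dist
    cases w with
    | nil =>
      rw [SimpleGraph.Walk.length_nil] at hw
      exact absurd hw.symm hne
    | @cons _ b _ hab w' =>
      refine ⟨b, hab, ?_⟩
      rw [SimpleGraph.Walk.length_cons] at hw
      have h1 : G.dist b r ≤ w'.length := SimpleGraph.dist_le _
      omega
  refine ⟨lev, root, fun a b hab => ⟨hadj a b hab, hsame a b hab⟩, ?_, ?_, ?_⟩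
  · intro a ha
    obtain ⟨b, hab, hb⟩ := step a (root a) (hroot a) ha
    refine ⟨b, hab, ?_⟩
    have h2 := hadj a b hab
    have h3 : lev b = G.dist b (root a) := by
      show G.dist b (root b) = _
      rw [hsame a b hab]
    have h4 : lev a = G.dist a (root a) := rfl
    omega
  · intro a
    exact Nat.sInf_le (SimpleGraph.Reachable.refl a)
  · intro a ha
    obtain ⟨w, hw⟩ := (hroot a).exists_walk_length_eq_dist
    have h4 : G.dist a (root a) = 0 := ha
    rw [h4] at hw
    exact (SimpleGraph.Walk.eq_of_length_eq_zero hw).symm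

end CV21
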