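import Mathlib
import Pool.Agent.CV21.Layer

/-!
# Colouring capped graphs (the main lemma)

Take `lev, root` from `exists_lev`.

STEP 1 (`no_inner`).  If `w < z` are adjacent with `lev w = lev z = i` then no `u` with
`w < u < z` and the same root has `lev u < i`: induction on `lev u`.  `lev u = 0` means
`u = root u = root w ≤ w`.  Otherwise take the neighbour `v` of `u` with `lev v + 1 = lev u`.
If `w < v < z` use induction; `v ≠ w, z` by the levels; if `v < w`, cap `v u` and `w z` to get
`v z` adjacent, so `lev z ≤ lev v + 1 < i`; if `z < v`, cap `w z` and `u v` to get `w v` adjacent.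

STEP 2.  Let `A` be the set of `x ∈ S` with `lev x = 0` or having a neighbour `y < x` with
`lev y + 1 = lev x`; `B = S \ A`.  For `x ∈ A` let `g x` be the smallest `w < x`, `w ∈ A`,
adjacent to `x` with `lev w = lev x`, if there is one; `depA x = depA (g x) + 1`, otherwise
`depA x = 0`.  For `x ∈ B` let `f x` be the largest `w > x`, `w ∈ B`, adjacent to `x`, of the same
level; `depB x = depB (f x) + 1`, otherwise `0`.
The class of `x` is (`lev x % 2`, `x ∈ A`, parity of the depth of `x`).

STEP 3.  Let `Q` be a clique with at least two elements, all in the same class.  All elements have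
the same level `i` (adjacent, same parity) and `i ≠ 0` (`i = 0` would give two elements equal to
their common root).
If `Q ⊆ A`: let `w` be the smallest element of `Q` and `y < w` a neighbour of `w` with
`lev y + 1 = i`.  For `x ∈ Q`, `x ≠ w`: `w ≠ g x` by the parities of the depths, and `w` is a
neighbour of `x` in `A` at the same level, so `z = g x < w`.  Now `y` is not in `(z, x)` by step 1,
so `y < z` (`y ≠ z` by levels); cap `y w` and `z x` (`y < z < w < x`): `y` is adjacent to `x`.
If `Q ⊆ B`: symmetric, with `w` the largest element of `Q`, `y > w`, `z = f x > w`, `y > z`, cap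
`x z` and `w y` (`x < w < z < y`): `x` is adjacent to `y`.
-/

namespace CV21

private theorem Cap_par (μ : ℕ → ℕ) (P : ℕ → ℕ → Prop) (h : ∀ x w, P x w → μ w < μ x)
    (hu : ∀ x w w', P x w → P x w' → w = w') :
    ∃ c : ℕ → Bool, ∀ x w, P x w → c x = !c w := by
  classical
  let F : (x : ℕ) → ((y : ℕ) → μ y < μ x → Bool) → Bool := fun x rec =>
    if hx : ∃ w, P x w then !(rec hx.choose (h x _ hx.choose_spec)) else false
  let wf : WellFounded (InvImage (· < ·) μ) := InvImage.wf μ Nat.lt_wfRel.wf
  refine ⟨wf.fix F, fun x w hw => ?_⟩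
  rw [wf.fix_eq]
  have hx : ∃ w, P x w := ⟨w, hw⟩
  show (if hx : ∃ w, P x w then !(wf.fix F hx.choose) else false) = !(wf.fix F w)
  rw [dif_pos hx, hu x _ _ hx.choose_spec hw]

theorem cap_class (S : Finset ℕ) (E : ℕ → ℕ → Prop) (h : Capped S E) :
    ∃ κ : ℕ → ℕ, (∀ x, κ x < 8) ∧ ∀ Q ⊆ S, 2 ≤ Q.card → Cliq Q E →
      (∀ x ∈ Q, ∀ y ∈ Q, κ x = κ y) → ∃ z ∈ S, z ∉ Q ∧ Cliq (insert z Q) E := by
  classical
  obtain ⟨lev, root, hadj, hpar, hroot, hlev0⟩ := exists_lev S E
  set G := capGraph S E with hG
  have adjE : ∀ {a b : ℕ}, G.Adj a b → a < b → E a b := by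
    intro a b hab hlt
    rcases hab.2.2 with h1 | h1
    · exact h1.2
    · exact absurd (h1.1.trans hlt) (lt_irrefl _)
  have Eadj : ∀ {a b : ℕ}, a ∈ S → b ∈ S → a < b → E a b → G.Adj a b :=
    fun ha hb hlt hE => ⟨ha, hb, Or.inl ⟨hlt, hE⟩⟩
  have cap : ∀ {a b c d : ℕ}, a < b → b < c → c < d → G.Adj a c → G.Adj b d → G.Adj a d := by
    intro a b c d hab hbc hcd h1 h2
    exact Eadj h1.1 h2.2.1 (hab.trans (hbc.trans hcd))
      (h a h1.1 b h2.1 c h1.2.1 d h2.2.1 hab hbc hcd (adjE h1 (hab.trans hbc))
        (adjE h2 (hbc.trans hcd)))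
  have no_inner : ∀ {w z i : ℕ}, G.Adj w z → w < z → lev w = i → lev z = i →
      ∀ n u, lev u = n → w < u → u < z → root u = root w → n < i → False := by
    intro w z i hwz hlt hw hz n
    induction n with
    | zero =>
      intro u hu hwu huz hr _
      have h1 := hlev0 u hu
      have h2 := hroot w
      omega
    | succ n ih =>
      intro u hu hwu huz hr hn
      obtain ⟨v, hv, hlv⟩ := hpar u (by omega)
      have hrv : root u = root v := (hadj u v hv).2
      rcases lt_trichotomy v w with h1 | h1 | h1
      · have h2 : G.Adj v z := cap h1 hwu huz hv.symm hwz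
        have h3 := (hadj z v h2.symm).1
        omega
      · subst h1
        omega
      · rcases lt_trichotomy v z with h4 | h4 | h4
        · exact ih v (by omega) h1 h4 (by rw [← hrv, hr]) (by omega)
        · subst h4
          omega
        · have h2 : G.Adj w v := cap hwu huz h4 hwz hv
          have h3 := (hadj w v h2).1
          omega
  let inA : ℕ → Prop := fun x => lev x = 0 ∨ ∃ y, G.Adj x y ∧ y < x ∧ lev y + 1 = lev x
  let SA : ℕ → Set ℕ := fun x => {w | w < x ∧ inA w ∧ G.Adj w x ∧ lev w = lev x}
  let SB : ℕ → Set ℕ := fun x => {w | x < w ∧ ¬ inA w ∧ G.Adj x w ∧ lev w = lev x}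
  obtain ⟨cA, hcA⟩ := Cap_par id (fun x w => IsLeast (SA x) w) (fun x w hw => hw.1.1)
    (fun x w w' h1 h2 => h1.unique h2)
  have hbd : ∀ x ∈ S, x ≤ S.sup id := fun x hx => Finset.le_sup (f := id) hx
  obtain ⟨cB, hcB⟩ := Cap_par (fun x => S.sup id - x) (fun x w => IsGreatest (SB x) w)
    (fun x w hw => by
      have h1 := hbd w hw.1.2.2.1.2.1
      have h2 := hw.1.1
      show S.sup id - w < S.sup id - x
      omega)
    (fun x w w' h1 h2 => h1.unique h2)
  let κ : ℕ → ℕ := fun x => 4 * (lev x % 2) + 2 * (if inA x then 1 else 0) +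
    (if inA x then (cA x).toNat else (cB x).toNat)
  have hb : ∀ b : Bool, b.toNat ≤ 1 := fun b => by cases b <;> decide
  refine ⟨κ, ?_, ?_⟩
  · intro x
    have h1 := hb (cA x)
    have h2 := hb (cB x)
    show 4 * (lev x % 2) + 2 * (if inA x then 1 else 0) +
      (if inA x then (cA x).toNat else (cB x).toNat) < 8
    split_ifs <;> omega
  · intro Q hQS hQ hcl hκ
    have hQadj : ∀ x ∈ Q, ∀ y ∈ Q, x < y → G.Adj x y := fun x hx y hy hlt =>
      Eadj (hQS hx) (hQS hy) hlt (hcl x hx y hy hlt)
    have hsplit : ∀ x ∈ Q, ∀ y ∈ Q, lev x % 2 = lev y % 2 ∧ (inA x ↔ inA y) ∧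
        (inA x → cA x = cA y) ∧ (¬ inA x → cB x = cB y) := by
      intro x hx y hy
      have h1 : 4 * (lev x % 2) + 2 * (if inA x then 1 else 0) +
          (if inA x then (cA x).toNat else (cB x).toNat) =
          4 * (lev y % 2) + 2 * (if inA y then 1 else 0) +
          (if inA y then (cA y).toNat else (cB y).toNat) := hκ x hx y hy
      have a1 := hb (cA x)
      have a2 := hb (cB x)
      have a3 := hb (cA y)
      have a4 := hb (cB y)
      have inj : ∀ b b' : Bool, b.toNat = b'.toNat → b = b' := by
        intro b b'
        cases b <;> cases b' <;> simp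
      by_cases hx' : inA x <;> by_cases hy' : inA y
      · rw [if_pos hx', if_pos hy', if_pos hx', if_pos hy'] at h1
        refine ⟨by omega, ⟨fun _ => hy', fun _ => hx'⟩, fun _ => inj _ _ (by omega),
          fun h => absurd hx' h⟩
      · rw [if_pos hx', if_neg hy', if_pos hx', if_neg hy'] at h1
        omega
      · rw [if_neg hx', if_pos hy', if_neg hx', if_pos hy'] at h1
        omega
      · rw [if_neg hx', if_neg hy', if_neg hx', if_neg hy'] at h1
        refine ⟨by omega, ⟨fun h => absurd h hx', fun h => absurd h hy'⟩,
          fun h => absurd h hx', fun _ => inj _ _ (by omega)⟩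
    have hlev : ∀ x ∈ Q, ∀ y ∈ Q, lev x = lev y ∧ root x = root y := by
      intro x hx y hy
      have h1 := (hsplit x hx y hy).1
      rcases lt_trichotomy x y with h2 | h2 | h2
      · have h3 := hadj x y (hQadj x hx y hy h2)
        have h4 := hadj y x (hQadj x hx y hy h2).symm
        exact ⟨by omega, h3.2⟩
      · rw [h2]
        exact ⟨rfl, rfl⟩
      · have h3 := hadj y x (hQadj y hy x hx h2)
        have h4 := hadj x y (hQadj y hy x hx h2).symm
        exact ⟨by omega, h4.2⟩
    obtain ⟨p, hp, q, hq, hpq⟩ := Finset.one_lt_card.1 (lt_of_lt_of_le (by norm_num) hQ)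
    have hne : Q.Nonempty := ⟨p, hp⟩
    have hi0 : ∀ x ∈ Q, lev x ≠ 0 := by
      intro x hx h0
      have h1 := hlev0 p (by rw [(hlev p hp x hx).1]; exact h0)
      have h2 := hlev0 q (by rw [(hlev q hq x hx).1]; exact h0)
      apply hpq
      rw [← h1, ← h2]
      exact (hlev p hp q hq).2
    by_cases hA : inA p
    · -- all in A
      have hAll : ∀ x ∈ Q, inA x := fun x hx => (hsplit x hx p hp).2.1.2 hA
      set w := Q.min' hne with hw
      have hwQ : w ∈ Q := Finset.min'_mem Q hne
      have hwmin : ∀ x ∈ Q, w ≤ x := fun x hx => Finset.min'_le Q x hx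
      rcases hAll w hwQ with h0 | ⟨y, hy, hyw, hly⟩
      · exact absurd h0 (hi0 w hwQ)
      · have hyQ : y ∉ Q := fun hyQ => by
          have := (hlev y hyQ w hwQ).1
          omega
        have hEy : ∀ x ∈ Q, E y x := by
          intro x hx
          rcases eq_or_lt_of_le (hwmin x hx) with h1 | h1
          · rw [← h1]
            exact adjE hy.symm hyw
          · have hmem : w ∈ SA x :=
              ⟨h1, hAll w hwQ, hQadj w hwQ x hx h1, (hlev w hwQ x hx).1⟩
            have hz : IsLeast (SA x) (sInf (SA x)) :=
              ⟨Nat.sInf_mem ⟨w, hmem⟩, fun v hv => Nat.sInf_le hv⟩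
            set z := sInf (SA x) with hzdef
            have hzw : z ≤ w := hz.2 hmem
            have hc := hcA x z hz
            have hzw' : z ≠ w := by
              intro he
              rw [he] at hc
              have := (hsplit x hx w hwQ).2.2.1 (hAll x hx)
              rw [hc] at this
              cases h9 : cA w <;> rw [h9] at this <;> simp at this
            have hzlt : z < w := lt_of_le_of_ne hzw hzw'
            obtain ⟨hz1, hz2, hz3, hz4⟩ := hz.1
            have hry : root y = root z := by
              rw [(hadj w y hy).2.symm, (hlev w hwQ x hx).2]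
              exact (hadj z x hz3).2.symm
            have hyz : y < z := by
              rcases lt_trichotomy y z with h5 | h5 | h5
              · exact h5
              · exfalso
                rw [h5] at hly
                have := (hlev w hwQ x hx).1
                omega
              · exfalso
                exact no_inner hz3 hz1 hz4 rfl (lev y) y rfl h5 (hyw.trans h1) hry (by
                  have := (hlev w hwQ x hx).1
                  omega)
            exact adjE (cap hyz hzlt h1 hy.symm hz3) (hyw.trans h1)
        refine ⟨y, hy.2.1, hyQ, ?_⟩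
        intro a ha b hb' hab
        rcases Finset.mem_insert.1 ha with rfl | ha'
        · rcases Finset.mem_insert.1 hb' with rfl | hb''
          · exact absurd hab (lt_irrefl _)
          · exact hEy b hb''
        · rcases Finset.mem_insert.1 hb' with rfl | hb''
          · have := hwmin a ha'
            omega
          · exact hcl a ha' b hb'' hab
    · -- all in B
      have hAll : ∀ x ∈ Q, ¬ inA x := fun x hx h1 => hA ((hsplit x hx p hp).2.1.1 h1)
      set w := Q.max' hne with hw
      have hwQ : w ∈ Q := Finset.max'_mem Q hne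
      have hwmax : ∀ x ∈ Q, x ≤ w := fun x hx => Finset.le_max' Q x hx
      obtain ⟨y, hy, hly⟩ := hpar w (hi0 w hwQ)
      have hwy : w < y := by
        rcases lt_trichotomy w y with h1 | h1 | h1
        · exact h1
        · rw [← h1] at hly
          omega
        · exact absurd (Or.inr ⟨y, hy, h1, hly⟩) (hAll w hwQ)
      have hyQ : y ∉ Q := fun hyQ => by
        have := (hlev y hyQ w hwQ).1
        omega
      have hEy : ∀ x ∈ Q, E x y := by
        intro x hx
        rcases eq_or_lt_of_le (hwmax x hx) with h1 | h1
        · rw [h1]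
          exact adjE hy hwy
        · have hmem : w ∈ SB x :=
            ⟨h1, hAll w hwQ, hQadj x hx w hwQ h1, (hlev w hwQ x hx).1⟩
          have hbdd : BddAbove (SB x) := ⟨S.sup id, fun v hv => hbd v hv.2.2.1.2.1⟩
          have hz : IsGreatest (SB x) (sSup (SB x)) :=
            ⟨Nat.sSup_mem ⟨w, hmem⟩ hbdd, fun v hv => le_csSup hbdd hv⟩
          set z := sSup (SB x) with hzdef
          have hzw : w ≤ z := hz.2 hmem
          have hc := hcB x z hz
          have hzw' : w ≠ z := by
            intro he
            rw [← he] at hc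
            have := (hsplit x hx w hwQ).2.2.2 (hAll x hx)
            rw [hc] at this
            cases h9 : cB w <;> rw [h9] at this <;> simp at this
          have hzlt : w < z := lt_of_le_of_ne hzw hzw'
          obtain ⟨hz1, hz2, hz3, hz4⟩ := hz.1
          have hry : root y = root x := by
            rw [(hadj w y hy).2.symm, (hlev w hwQ x hx).2]
          have hyz : z < y := by
            rcases lt_trichotomy z y with h5 | h5 | h5
            · exact h5
            · exfalso
              rw [← h5] at hly
              have := (hlev w hwQ x hx).1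
              omega
            · exfalso
              exact no_inner hz3 hz1 rfl hz4 (lev y) y rfl (h1.trans hwy) h5 hry (by
                have := (hlev w hwQ x hx).1
                omega)
          exact adjE (cap h1 hzlt hyz hz3 hy) (h1.trans hwy)
      refine ⟨y, hy.2.1, hyQ, ?_⟩
      intro a ha b hb' hab
      rcases Finset.mem_insert.1 ha with rfl | ha'
      · rcases Finset.mem_insert.1 hb' with rfl | hb''
        · exact absurd hab (lt_irrefl _)
        · have := hwmax b hb''
          omega
      · rcases Finset.mem_insert.1 hb' with rfl | hb''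
        · exact hEy a ha'
        · exact hcl a ha' b hb'' hab

end CV21
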