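import Mathlib
import Pool.Agent.CV21.Defs

/-!
# Closings (see CV21/Defs)

Proof of `clo_row` (a closing `a, d` with witnesses `b < c`; let `a < x < d` and `σ a x d`):
`x = b, c` is clear.  `x < b`: rule `mono` on `a x b d` gives `σ a x b` and `¬ σ x b d`, then
rule `c4` on `a x b c d` (with `σ a x d`, `σ a b c`, `¬ σ a b d`, `σ b c d`) is violated.
`b < x < c`: rule `c6` on `a b x c d` (`σ a b c`, `¬ σ a b d`, `σ b c d`, so `¬ σ a x d`).
`x > c`: rule `c3` on `a b c x d` (`σ a b c`, `¬ σ a b d`, `σ b c d`, so `¬ σ a x d`).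

Proof of `clo_cap`: let `p < q` be the witnesses of the closing `a, c`.  By `clo_row` for `b, d`:
`¬ σ b c d`.  The pair `p, q` is also a witness for `a, d` (checked by computer for every position
of `b` with respect to `p, q`, the cases `b = p`, `b = q` included; only rules mono, hat, c1, c3,
c4, c6 for the elements `a, p, q, b, c, d` are used).
-/

namespace CV21

theorem clo_row {S : Finset ℕ} {σ : ℕ → ℕ → ℕ → Prop} (h : RS S σ) {a d : ℕ} (ha : a ∈ S)
    (hd : d ∈ S) (hc : Clo S σ a d) : ∀ x ∈ S, a < x → x < d → ¬ σ a x d := by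
  obtain ⟨b, hb, c, hcS, hab, hbc, hcd, h1, h2, h3, h4⟩ := hc
  intro x hx hax hxd hs
  rcases lt_trichotomy x b with hxb | rfl | hbx
  · exact h.c4 a ha x hx b hb c hcS d hd hax hxb hbc hcd hs h1 h2 h4
  · exact h2 hs
  · rcases lt_trichotomy x c with hxc | rfl | hcx
    · exact h.c6 a ha b hb x hx c hcS d hd hab hbx hxc hcd h1 h2 h4 hs
    · exact h3 hs
    · exact h.c3 a ha b hb c hcS x hx d hd hab hbc hcx hxd h1 h2 h4 hs

theorem clo_cap {S : Finset ℕ} {σ : ℕ → ℕ → ℕ → Prop} (h : RS S σ) : Capped S (Clo S σ) := by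
  intro a ha b hb c hc d hd hab hbc hcd hac hbd
  have habc : ¬ σ a b c := clo_row h ha hc hac b hb hab hbc
  have hbcd : ¬ σ b c d := clo_row h hb hd hbd c hc hbc hcd
  obtain ⟨p, hp, q, hq, hap, hpq, hqc, h1, h2, h3, h4⟩ := hac
  have hacd : ¬ σ a c d := by
    intro hs
    have hhat := h.hat a ha b hb c hc d hd hab hbc hcd
    have hmono := h.mono a ha b hb c hc d hd hab hbc hcd
    by_cases h5 : σ a b d
    · exact hhat ⟨habc, h5, hs, hbcd⟩
    · exact hbcd ((hmono fun hiff => h5 (hiff.2 hs)).2.2 hs)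
  have key : ∀ x ∈ S, a < x → x < c → ¬ σ a x c → ¬ σ a x d := by
    intro x hx hax hxc hxs hs
    have hmono := h.mono a ha x hx c hc d hd hax hxc hcd
    exact hxs ((hmono fun hiff => hacd (hiff.1 hs)).1.2 hs)
  have hpcd : σ p c d := h.c1 a ha p hp q hq c hc d hd hap hpq hqc hcd h1 h2 h4
  have hpqd : σ p q d := by
    by_contra hs
    have hmono := h.mono p hp q hq c hc d hd hpq hqc hcd
    exact hs ((hmono fun hiff => hs (hiff.2 hpcd)).1.1 h4)
  exact ⟨p, hp, q, hq, hap, hpq, hqc.trans hcd, h1, key p hp hap (hpq.trans hqc) h2,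
    key q hq (hap.trans hpq) hqc h3, hpqd⟩

end CV21
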