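import Mathlib
import Pool.Agent.CV21.Defs

/-!
# The cups-caps theorem for a transitive 2-colouring of triples

Induction on `k + l`.  `k = 0` or `l = 0`: a 2-element set will do.  Otherwise let `A` be the set
of all `x ∈ S` which are the largest element of a subset of `S` of size `k + 1` with all triples
in `σ`.  `S \ A` has no subset of size `k + 1` with all triples in `σ`, so either it gives the
second alternative or `card (S \ A) ≤ choose (k - 1 + l) (k - 1)`, and then
`card A > choose (k + l - 1) k` gives a subset `y₁ < ... < y_{l+1}` of `A` with all triples in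
`¬ σ`; let `x₁ < ... < x_{k+1} = y₁` have all triples in `σ`.  According to the colour of
`x_k, y₁, y₂` one of the two sets can be extended by one element (transitivity).
-/

namespace CV21

theorem es_two (S : Finset ℕ) (P : ℕ → ℕ → ℕ → Prop) (h : 1 < S.card) :
    ∃ Q ⊆ S, Q.card = 2 ∧ ∀ a ∈ Q, ∀ b ∈ Q, ∀ c ∈ Q, a < b → b < c → P a b c := by
  obtain ⟨Q, hQS, hQ⟩ := Finset.exists_subset_card_eq (show 2 ≤ S.card from h)
  refine ⟨Q, hQS, hQ, ?_⟩
  intro a ha b hb c hc hab hbc
  exfalso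
  have h1 : ({a, b, c} : Finset ℕ) ⊆ Q := by
    intro t ht
    simp only [Finset.mem_insert, Finset.mem_singleton] at ht
    rcases ht with rfl | rfl | rfl
    · exact ha
    · exact hb
    · exact hc
  have h2 : ({a, b, c} : Finset ℕ).card = 3 := by
    rw [Finset.card_eq_three]
    exact ⟨a, b, c, hab.ne, (hab.trans hbc).ne, hbc.ne, rfl⟩
  have h3 := Finset.card_le_card h1
  omega

/-- the extension step -/
theorem es_step (σ : ℕ → ℕ → ℕ → Prop) (k l : ℕ) (S X Y : Finset ℕ)
    (h1 : ∀ a ∈ S, ∀ b ∈ S, ∀ c ∈ S, ∀ d ∈ S, a < b → b < c → c < d →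
      σ a b c → σ b c d → σ a b d ∧ σ a c d)
    (h2 : ∀ a ∈ S, ∀ b ∈ S, ∀ c ∈ S, ∀ d ∈ S, a < b → b < c → c < d →
      ¬ σ a b c → ¬ σ b c d → ¬ σ a b d ∧ ¬ σ a c d)
    (hXS : X ⊆ S) (hYS : Y ⊆ S) (hX : X.card = k + 2) (hY : Y.card = l + 2)
    (hXσ : ∀ a ∈ X, ∀ b ∈ X, ∀ c ∈ X, a < b → b < c → σ a b c)
    (hYσ : ∀ a ∈ Y, ∀ b ∈ Y, ∀ c ∈ Y, a < b → b < c → ¬ σ a b c)
    (y : ℕ) (hyX : y ∈ X) (hyY : y ∈ Y) (hmax : ∀ x ∈ X, x ≤ y) (hmin : ∀ z ∈ Y, y ≤ z) :
    (∃ Q ⊆ S, Q.card = k + 3 ∧ ∀ a ∈ Q, ∀ b ∈ Q, ∀ c ∈ Q, a < b → b < c → σ a b c) ∨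
    (∃ Q ⊆ S, Q.card = l + 3 ∧ ∀ a ∈ Q, ∀ b ∈ Q, ∀ c ∈ Q, a < b → b < c → ¬ σ a b c) := by
  classical
  have hXe : (X.erase y).Nonempty := by
    rw [← Finset.card_pos, Finset.card_erase_of_mem hyX]; omega
  have hYe : (Y.erase y).Nonempty := by
    rw [← Finset.card_pos, Finset.card_erase_of_mem hyY]; omega
  set x := (X.erase y).max' hXe with hx
  set y2 := (Y.erase y).min' hYe with hy2
  have hxm := Finset.max'_mem _ hXe
  have hy2m := Finset.min'_mem _ hYe
  rw [← hx] at hxm
  rw [← hy2] at hy2m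
  obtain ⟨hxy, hxX⟩ := Finset.mem_erase.1 hxm
  obtain ⟨hy2y, hy2Y⟩ := Finset.mem_erase.1 hy2m
  have hxlt : x < y := lt_of_le_of_ne (hmax x hxX) hxy
  have hy2lt : y < y2 := lt_of_le_of_ne (hmin y2 hy2Y) (Ne.symm hy2y)
  have hxle : ∀ b ∈ X, b < y → b ≤ x := fun b hb hby =>
    Finset.le_max' _ b (Finset.mem_erase.2 ⟨hby.ne, hb⟩)
  have hy2le : ∀ b ∈ Y, y < b → y2 ≤ b := fun b hb hby =>
    Finset.min'_le _ b (Finset.mem_erase.2 ⟨hby.ne', hb⟩)
  by_cases hc : σ x y y2
  · left
    have claim : ∀ b ∈ X, b < y → σ b y y2 := by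
      intro b hb hby
      rcases (hxle b hb hby).lt_or_eq with h | h
      · exact (h1 b (hXS hb) x (hXS hxX) y (hXS hyX) y2 (hYS hy2Y) h hxlt hy2lt
          (hXσ b hb x hxX y hyX h hxlt) hc).2
      · rw [h]; exact hc
    have hy2X : y2 ∉ X := fun h => by
      have := hmax y2 h
      omega
    refine ⟨insert y2 X, Finset.insert_subset (hYS hy2Y) hXS, ?_, ?_⟩
    · rw [Finset.card_insert_of_notMem hy2X, hX]
    · intro a ha b hb c hc' hab hbc
      have hle : ∀ t ∈ insert y2 X, t ≤ y2 := by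
        intro t ht
        rcases Finset.mem_insert.1 ht with rfl | ht
        · exact le_rfl
        · exact (hmax t ht).trans hy2lt.le
      have haX : a ∈ X := by
        rcases Finset.mem_insert.1 ha with h | h
        · have := hle b hb
          omega
        · exact h
      have hbX : b ∈ X := by
        rcases Finset.mem_insert.1 hb with h | h
        · have := hle c hc'
          omega
        · exact h
      rcases Finset.mem_insert.1 hc' with rfl | hcX
      · rcases (hmax b hbX).lt_or_eq with h | h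
        · exact (h1 a (hXS haX) b (hXS hbX) y (hXS hyX) y2 (hYS hy2Y) hab h hy2lt
            (hXσ a haX b hbX y hyX hab h) (claim b hbX h)).1
        · rw [h] at hab ⊢
          exact claim a haX hab
      · exact hXσ a haX b hbX c hcX hab hbc
  · right
    have claim : ∀ c ∈ Y, y < c → ¬ σ x y c := by
      intro c hcY hyc
      rcases (hy2le c hcY hyc).lt_or_eq with h | h
      · exact (h2 x (hXS hxX) y (hXS hyX) y2 (hYS hy2Y) c (hYS hcY) hxlt hy2lt h hc
          (hYσ y hyY y2 hy2Y c hcY hy2lt h)).1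
      · rw [← h]; exact hc
    have hxY : x ∉ Y := fun h => by
      have := hmin x h
      omega
    refine ⟨insert x Y, Finset.insert_subset (hXS hxX) hYS, ?_, ?_⟩
    · rw [Finset.card_insert_of_notMem hxY, hY]
    · intro a ha b hb c hc' hab hbc
      have hle : ∀ t ∈ insert x Y, x ≤ t := by
        intro t ht
        rcases Finset.mem_insert.1 ht with rfl | ht
        · exact le_rfl
        · exact hxlt.le.trans (hmin t ht)
      have hcY : c ∈ Y := by
        rcases Finset.mem_insert.1 hc' with h | h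
        · have := hle b hb
          omega
        · exact h
      have hbY : b ∈ Y := by
        rcases Finset.mem_insert.1 hb with h | h
        · have := hle a ha
          omega
        · exact h
      rcases Finset.mem_insert.1 ha with rfl | haY
      · rcases (hmin b hbY).lt_or_eq with h | h
        · exact (h2 x (hXS hxX) y (hXS hyX) b (hYS hbY) c (hYS hcY) hxlt h hbc
            (claim b hbY h) (hYσ y hyY b hbY c hcY h hbc)).2
        · rw [← h] at hbc ⊢
          exact claim c hcY hbc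
      · exact hYσ a haY b hbY c hcY hab hbc

theorem es (σ : ℕ → ℕ → ℕ → Prop) (k l : ℕ) (S : Finset ℕ)
    (h1 : ∀ a ∈ S, ∀ b ∈ S, ∀ c ∈ S, ∀ d ∈ S, a < b → b < c → c < d →
      σ a b c → σ b c d → σ a b d ∧ σ a c d)
    (h2 : ∀ a ∈ S, ∀ b ∈ S, ∀ c ∈ S, ∀ d ∈ S, a < b → b < c → c < d →
      ¬ σ a b c → ¬ σ b c d → ¬ σ a b d ∧ ¬ σ a c d)
    (hS : Nat.choose (k + l) k < S.card) :
    (∃ Q ⊆ S, Q.card = k + 2 ∧ ∀ a ∈ Q, ∀ b ∈ Q, ∀ c ∈ Q, a < b → b < c → σ a b c) ∨
    (∃ Q ⊆ S, Q.card = l + 2 ∧ ∀ a ∈ Q, ∀ b ∈ Q, ∀ c ∈ Q, a < b → b < c → ¬ σ a b c) := by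
  classical
  induction k generalizing l S with
  | zero =>
    left
    rw [Nat.choose_zero_right] at hS
    exact es_two S σ hS
  | succ k ihk =>
    induction l generalizing S with
    | zero =>
      right
      rw [Nat.add_zero, Nat.choose_self] at hS
      exact es_two S (fun a b c => ¬ σ a b c) hS
    | succ l ihl =>
      set A : Finset ℕ := S.filter (fun x => ∃ Q ⊆ S, Q.card = k + 2 ∧
        (∀ a ∈ Q, ∀ b ∈ Q, ∀ c ∈ Q, a < b → b < c → σ a b c) ∧ x ∈ Q ∧ ∀ z ∈ Q, z ≤ x) with hA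
      have hAS : A ⊆ S := Finset.filter_subset _ _
      have hDS : S \ A ⊆ S := Finset.sdiff_subset
      by_cases hD : Nat.choose (k + (l + 1)) k < (S \ A).card
      · rcases ihk (l + 1) (S \ A)
          (fun a ha b hb c hc d hd => h1 a (hDS ha) b (hDS hb) c (hDS hc) d (hDS hd))
          (fun a ha b hb c hc d hd => h2 a (hDS ha) b (hDS hb) c (hDS hc) d (hDS hd)) hD with
          ⟨Q, hQ, hQc, hQσ⟩ | ⟨Q, hQ, hQc, hQσ⟩
        · exfalso
          have hne : Q.Nonempty := by rw [← Finset.card_pos]; omega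
          have hm := Finset.max'_mem Q hne
          have := (Finset.mem_sdiff.1 (hQ hm)).2
          apply this
          exact Finset.mem_filter.2 ⟨hDS (hQ hm), Q, hQ.trans hDS, hQc, hQσ, hm,
            fun z hz => Finset.le_max' Q z hz⟩
        · exact Or.inr ⟨Q, hQ.trans hDS, hQc, hQσ⟩
      · have hcard : (S \ A).card + A.card = S.card := Finset.card_sdiff_add_card_eq_card hAS
        have hAc : Nat.choose (k + 1 + l) (k + 1) < A.card := by
          have e1 : k + 1 + (l + 1) = (k + (l + 1)) + 1 := by ring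
          have e2 : k + (l + 1) = k + 1 + l := by ring
          rw [e1, Nat.choose_succ_succ] at hS
          rw [← e2]
          simp only [Nat.succ_eq_add_one] at hS
          omega
        rcases ihl A
          (fun a ha b hb c hc d hd => h1 a (hAS ha) b (hAS hb) c (hAS hc) d (hAS hd))
          (fun a ha b hb c hc d hd => h2 a (hAS ha) b (hAS hb) c (hAS hc) d (hAS hd)) hAc with
          ⟨Q, hQ, hQc, hQσ⟩ | ⟨Y, hY, hYc, hYσ⟩
        · exact Or.inl ⟨Q, hQ.trans hAS, hQc, hQσ⟩
        · have hne : Y.Nonempty := by rw [← Finset.card_pos]; omega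
          have hm := Finset.min'_mem Y hne
          obtain ⟨_, X, hXS, hXc, hXσ, hyX, hmax⟩ := Finset.mem_filter.1 (hY hm)
          exact es_step σ k l S X Y h1 h2 hXS (hY.trans hAS) hXc hYc hXσ hYσ (Y.min' hne) hyX hm
            hmax (fun z hz => Finset.min'_le Y z hz)

end CV21
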