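import Mathlib
import Pool.Agent.CV21.Cap

/-!
# Large independent sets in capped graphs

Induction on `w`.  `w = 0`: no edges, `I = S`.  Step: let `κ` be as in `cap_class`; some class
`S' = S.filter (κ · = i)` has `S.card ≤ 8 * S'.card` (pigeonhole); it is capped and its cliques
have at most `w + 1` elements.
-/

namespace CV21

theorem indep (E : ℕ → ℕ → Prop) (w : ℕ) (S : Finset ℕ) (h : Capped S E)
    (hw : ∀ Q ⊆ S, Cliq Q E → Q.card ≤ w + 1) :
    ∃ I ⊆ S, (∀ a ∈ I, ∀ b ∈ I, a < b → ¬ E a b) ∧ S.card ≤ 8 ^ w * I.card := by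
  induction w generalizing S with
  | zero =>
    refine ⟨S, Finset.Subset.refl S, ?_, by simp⟩
    intro a ha b hb hab hE
    have h1 := hw {a, b} (by
      intro x hx
      rcases Finset.mem_insert.1 hx with rfl | hx
      · exact ha
      · rw [Finset.mem_singleton.1 hx]; exact hb) (by
      intro x hx y hy hxy
      rcases Finset.mem_insert.1 hx with rfl | hx
      · rcases Finset.mem_insert.1 hy with rfl | hy
        · exact absurd hxy (lt_irrefl _)
        · rw [Finset.mem_singleton.1 hy]; exact hE
      · rw [Finset.mem_singleton.1 hx] at hxy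
        rcases Finset.mem_insert.1 hy with rfl | hy
        · omega
        · rw [Finset.mem_singleton.1 hy] at hxy
          exact absurd hxy (lt_irrefl _))
    rw [Finset.card_pair hab.ne] at h1
    omega
  | succ w ih =>
    obtain ⟨κ, hκ, hQ⟩ := cap_class S E h
    have hpig : ∃ i < 8, S.card ≤ 8 * (S.filter fun x => κ x = i).card := by
      by_contra hcon
      push Not at hcon
      have h1 : S.card = ∑ i ∈ Finset.range 8, (S.filter fun x => κ x = i).card :=
        Finset.card_eq_sum_card_fiberwise fun x _ => by
          simpa using hκ x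
      have h2 : ∑ i ∈ Finset.range 8, 8 * (S.filter fun x => κ x = i).card <
          ∑ _i ∈ Finset.range 8, S.card :=
        Finset.sum_lt_sum_of_nonempty ⟨0, by simp⟩ fun i hi => hcon i (Finset.mem_range.1 hi)
      rw [← Finset.mul_sum, ← h1, Finset.sum_const, Finset.card_range, smul_eq_mul] at h2
      exact lt_irrefl _ h2
    obtain ⟨i, _, hi⟩ := hpig
    set S' := S.filter fun x => κ x = i with hS'
    have hsub : S' ⊆ S := Finset.filter_subset _ _
    obtain ⟨I, hI, hind, hcard⟩ := ih S' (fun a ha b hb c hc d hd =>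
      h a (hsub ha) b (hsub hb) c (hsub hc) d (hsub hd)) (by
      intro Q hQS hcl
      by_contra hlt
      have h2 : 2 ≤ Q.card := by omega
      obtain ⟨z, hz, hzQ, hcl'⟩ := hQ Q (hQS.trans hsub) h2 hcl (by
        intro x hx y hy
        rw [(Finset.mem_filter.1 (hQS hx)).2, (Finset.mem_filter.1 (hQS hy)).2])
      have h3 := hw (insert z Q) (by
        intro x hx
        rcases Finset.mem_insert.1 hx with rfl | hx
        · exact hz
        · exact hsub (hQS hx)) hcl'
      rw [Finset.card_insert_of_notMem hzQ] at h3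
      omega)
    refine ⟨I, hI.trans hsub, hind, ?_⟩
    calc S.card ≤ 8 * S'.card := hi
      _ ≤ 8 * (8 ^ w * I.card) := Nat.mul_le_mul_left 8 hcard
      _ = 8 ^ (w + 1) * I.card := by ring

end CV21
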