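import Mathlib
import Pool.Agent.CV21.Defs

/-!
# Chains and antichains

For `x ∈ S` let `f x` be the largest size of a chain `Q ⊆ S` with largest element `x`
(`1 ≤ f x`).  If there is no chain with `k + 1` elements then `f` maps `S` to `1, ..., k`, and two
elements `a < b` with `f a = f b` do not satisfy `R a b`; use the pigeonhole principle
(`Finset.exists_lt_card_fiber_of_mul_lt_card_of_maps_to`).
-/

namespace CV21

theorem mirsky (S : Finset ℕ) (R : ℕ → ℕ → Prop)
    (htr : ∀ a ∈ S, ∀ b ∈ S, ∀ c ∈ S, a < b → b < c → R a b → R b c → R a c) (k m : ℕ)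
    (hS : k * m < S.card) :
    (∃ Q ⊆ S, Q.card = k + 1 ∧ ∀ a ∈ Q, ∀ b ∈ Q, a < b → R a b) ∨
    (∃ Q ⊆ S, m < Q.card ∧ ∀ a ∈ Q, ∀ b ∈ Q, a < b → ¬ R a b) := by
  classical
  let ch : ℕ → Finset (Finset ℕ) := fun x => S.powerset.filter
    (fun Q => x ∈ Q ∧ (∀ a ∈ Q, a ≤ x) ∧ ∀ a ∈ Q, ∀ b ∈ Q, a < b → R a b)
  have hch : ∀ x Q, Q ∈ ch x ↔ Q ⊆ S ∧ x ∈ Q ∧ (∀ a ∈ Q, a ≤ x) ∧
      ∀ a ∈ Q, ∀ b ∈ Q, a < b → R a b := by
    intro x Q
    simp only [ch, Finset.mem_filter, Finset.mem_powerset]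
  let f : ℕ → ℕ := fun x => (ch x).sup Finset.card
  have hsing : ∀ x ∈ S, {x} ∈ ch x := by
    intro x hx
    rw [hch]
    refine ⟨by simpa using hx, by simp, by simp, ?_⟩
    intro a ha b hb hab
    rw [Finset.mem_singleton] at ha hb
    omega
  have hf1 : ∀ x ∈ S, 1 ≤ f x := by
    intro x hx
    have := Finset.le_sup (f := Finset.card) (hsing x hx)
    rwa [Finset.card_singleton] at this
  have hmax : ∀ x ∈ S, ∃ Q ∈ ch x, Q.card = f x := by
    intro x hx
    obtain ⟨Q, hQ, hQ'⟩ := Finset.exists_mem_eq_sup (ch x) ⟨_, hsing x hx⟩ Finset.card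
    exact ⟨Q, hQ, hQ'.symm⟩
  by_cases hk : ∃ x ∈ S, k + 1 ≤ f x
  · left
    obtain ⟨x, hx, hxk⟩ := hk
    obtain ⟨Q, hQ, hQc⟩ := hmax x hx
    rw [hch] at hQ
    obtain ⟨Q', hQ', hQ'c⟩ := Finset.exists_subset_card_eq (hQc ▸ hxk : k + 1 ≤ Q.card)
    exact ⟨Q', hQ'.trans hQ.1, hQ'c, fun a ha b hb => hQ.2.2.2 a (hQ' ha) b (hQ' hb)⟩
  · right
    push Not at hk
    have hmaps : ∀ x ∈ S, f x ∈ Finset.Icc 1 k := by
      intro x hx
      rw [Finset.mem_Icc]
      exact ⟨hf1 x hx, by have := hk x hx; omega⟩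
    obtain ⟨y, _, hy⟩ := Finset.exists_lt_card_fiber_of_mul_lt_card_of_maps_to (n := m) hmaps
      (by simpa using hS)
    refine ⟨S.filter (fun x => f x = y), Finset.filter_subset _ _, hy, ?_⟩
    intro a ha b hb hab hR
    rw [Finset.mem_filter] at ha hb
    obtain ⟨Q, hQ, hQc⟩ := hmax a ha.1
    rw [hch] at hQ
    have hbQ : b ∉ Q := by
      intro h
      have := hQ.2.2.1 b h
      omega
    have hins : insert b Q ∈ ch b := by
      rw [hch]
      refine ⟨?_, Finset.mem_insert_self _ _, ?_, ?_⟩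
      · intro x hx
        rcases Finset.mem_insert.1 hx with h | h
        · rw [h]; exact hb.1
        · exact hQ.1 h
      · intro x hx
        rcases Finset.mem_insert.1 hx with h | h
        · omega
        · have := hQ.2.2.1 x h
          omega
      · intro x hx z hz hxz
        rcases Finset.mem_insert.1 hx with h | h
        · rcases Finset.mem_insert.1 hz with h' | h'
          · omega
          · have := hQ.2.2.1 z h'
            omega
        · rcases Finset.mem_insert.1 hz with h' | h'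
          · subst h'
            rcases eq_or_lt_of_le (hQ.2.2.1 x h) with he | hl
            · rw [he]; exact hR
            · exact htr x (hQ.1 h) a ha.1 z hb.1 hl hab (hQ.2.2.2 x h a hQ.2.1 hl) hR
          · exact hQ.2.2.2 x h z h' hxz
    have h1 := Finset.le_sup (f := Finset.card) hins
    rw [Finset.card_insert_of_notMem hbQ, hQc] at h1
    have h2 : f a + 1 ≤ f b := h1
    omega

end CV21
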