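import Mathlib
import Pool.Agent.CV21.Clo
import Pool.Agent.CV21.ES
import Pool.Agent.CV21.Indep

/-!
# Monochromatic sets in sign systems

If some `Q ⊆ S` with `n + 2` elements has all pairs closings, its triples have all signs `-`
(`clo_row`).  Otherwise `indep` (with `w = n`) gives `I` without closings, and
`choose (2 n) n < I.card`; on `I` the two colours are transitive (rules `mono`, `hat`, no closing),
so `es` with `k = l = n` applies.
-/

namespace CV21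

theorem mono (S : Finset ℕ) (σ : ℕ → ℕ → ℕ → Prop) (h : RS S σ) (n : ℕ)
    (hS : 8 ^ n * Nat.choose (2 * n) n < S.card) :
    ∃ Q ⊆ S, Q.card = n + 2 ∧
      ((∀ a ∈ Q, ∀ b ∈ Q, ∀ c ∈ Q, a < b → b < c → σ a b c) ∨
        (∀ a ∈ Q, ∀ b ∈ Q, ∀ c ∈ Q, a < b → b < c → ¬ σ a b c)) := by
  by_cases hq : ∃ Q ⊆ S, Cliq Q (Clo S σ) ∧ n + 2 ≤ Q.card
  · obtain ⟨Q, hQS, hQ, hQn⟩ := hq
    obtain ⟨Q', hQ', hcard⟩ := Finset.exists_subset_card_eq hQn
    refine ⟨Q', hQ'.trans hQS, hcard, Or.inr ?_⟩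
    intro a ha b hb c hc hab hbc
    exact clo_row h (hQS (hQ' ha)) (hQS (hQ' hc)) (hQ a (hQ' ha) c (hQ' hc) (hab.trans hbc)) b
      (hQS (hQ' hb)) hab hbc
  · push Not at hq
    obtain ⟨I, hIS, hI, hIc⟩ := indep (Clo S σ) n S (clo_cap h) (fun Q hQS hQ => by
      have := hq Q hQS hQ
      omega)
    have hlt : Nat.choose (n + n) n < I.card := by
      rw [← two_mul]
      exact Nat.lt_of_mul_lt_mul_left (lt_of_lt_of_le hS hIc)
    have h1 : ∀ a ∈ I, ∀ b ∈ I, ∀ c ∈ I, ∀ d ∈ I, a < b → b < c → c < d →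
        σ a b c → σ b c d → σ a b d ∧ σ a c d := by
      intro a ha b hb c hc d hd hab hbc hcd h1 h2
      have h3 : ¬ (σ a b c ∧ ¬ σ a b d ∧ ¬ σ a c d ∧ σ b c d) := fun h4 =>
        hI a ha d hd (hab.trans (hbc.trans hcd))
          ⟨b, hIS hb, c, hIS hc, hab, hbc, hcd, h4⟩
      have h4 := h.mono a (hIS ha) b (hIS hb) c (hIS hc) d (hIS hd) hab hbc hcd
      tauto
    have h2 : ∀ a ∈ I, ∀ b ∈ I, ∀ c ∈ I, ∀ d ∈ I, a < b → b < c → c < d →
        ¬ σ a b c → ¬ σ b c d → ¬ σ a b d ∧ ¬ σ a c d := by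
      intro a ha b hb c hc d hd hab hbc hcd h1 h2
      have h3 := h.hat a (hIS ha) b (hIS hb) c (hIS hc) d (hIS hd) hab hbc hcd
      have h4 := h.mono a (hIS ha) b (hIS hb) c (hIS hc) d (hIS hd) hab hbc hcd
      tauto
    rcases es σ n n I h1 h2 hlt with ⟨Q, hQ, hc, hσ⟩ | ⟨Q, hQ, hc, hσ⟩
    · exact ⟨Q, hQ.trans hIS, hc, Or.inl hσ⟩
    · exact ⟨Q, hQ.trans hIS, hc, Or.inr hσ⟩


end CV21
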