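import Mathlib
import Pool.Agent.CV21.Sign

/-!
# Sets without blue pairs
-/

namespace CV21

open H83XR

variable {V : Type*} {pos : V → V → ℕ}

/-- The set `W` has no blue pair (seen from `o`). -/
def Red (pos : V → V → ℕ) (o : V) (W : Set V) : Prop :=
  o ∉ W ∧ ∀ x ∈ W, ∀ y ∈ W, pos o x < pos o y → ∀ z ∈ W, z ≠ x → z ≠ y → ¬ Exits pos o x y z

theorem red3 (hp : IsRotation pos) (hr : Realizable pos) {o : V} {W : Set V} (hW : Red pos o W)
    {x y z : V} (hx : x ∈ W) (hy : y ∈ W) (hz : z ∈ W) (hxy : pos o x < pos o y)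
    (hyz : pos o y < pos o z) :
    Ccw pos y o x z ∧ (Ccw pos z o x y ↔ Ccw pos x o y z) := by
  have hxo : x ≠ o := fun h => hW.1 (h ▸ hx)
  have hyo : y ≠ o := fun h => hW.1 (h ▸ hy)
  have hzo : z ≠ o := fun h => hW.1 (h ▸ hz)
  have nxy : x ≠ y := fun h => by rw [h] at hxy; omega
  have nyz : y ≠ z := fun h => by rw [h] at hyz; omega
  have nxz : x ≠ z := fun h => by rw [h] at hxy; omega
  have g1 := hW.2 x hx y hy hxy z hz nxz.symm nyz.symm
  have g2 := hW.2 y hy z hz hyz x hx nxy nxz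
  have g3 := hW.2 x hx z hz (hxy.trans hyz) y hy nxy.symm nyz
  rw [exits_T hp hxo hyo hzo nxy nyz nxz] at g1
  rw [exits_T hp hyo hzo hxo nyz nxz.symm nxy.symm] at g2
  rw [exits_T hp hxo hzo hyo nxz nyz.symm nxy] at g3
  have w1 : Ccw pos z o y x ↔ ¬ Ccw pos z o x y :=
    ccw_swap' hp hzo.symm nxz nyz hxo.symm nxy hyo.symm
  have w2 : Ccw pos y o z x ↔ ¬ Ccw pos y o x z :=
    ccw_swap' hp hyo.symm nxy nyz.symm hxo.symm nxz hzo.symm
  have w3 : Ccw pos x o z y ↔ ¬ Ccw pos x o y z :=
    ccw_swap' hp hxo.symm nxy.symm nxz.symm hyo.symm nyz hzo.symm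
  have f := T_par hp hr hxo hyo hzo hxy hyz
  have k1 : ¬ Ccw pos o x z y := by unfold Ccw; omega
  have k2 : ¬ Ccw pos o y x z := by unfold Ccw; omega
  have k3 : Ccw pos o x y z := by unfold Ccw; omega
  grind

/-- The orientations of four vertices of a set without blue pairs. -/
theorem redK (hp : IsRotation pos) (hr : Realizable pos) {o : V} {W : Set V} (hW : Red pos o W)
    {a b c d : V} (ha : a ∈ W) (hb : b ∈ W) (hc : c ∈ W) (hd : d ∈ W) (hab : pos o a < pos o b)
    (hbc : pos o b < pos o c) (hcd : pos o c < pos o d) :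
    (Ccw pos a b c d ↔ (Ccw pos a o b c ↔ (Ccw pos a o c d ↔ Ccw pos a o b d))) ∧
    (Ccw pos b a c d ↔ Ccw pos b o c d) ∧ (Ccw pos c a b d ↔ Ccw pos a o b c) ∧
    (Ccw pos d a b c ↔ (Ccw pos a o b d ↔ (Ccw pos b o c d ↔ Ccw pos a o c d))) ∧
    (¬ (Ccw pos a o b d ↔ Ccw pos a o c d) →
      (Ccw pos a o b c ↔ Ccw pos a o b d) ∧ (Ccw pos b o c d ↔ Ccw pos a o c d)) := by
  have hao : a ≠ o := fun h => hW.1 (h ▸ ha)
  have hbo : b ≠ o := fun h => hW.1 (h ▸ hb)
  have hco : c ≠ o := fun h => hW.1 (h ▸ hc)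
  have hdo : d ≠ o := fun h => hW.1 (h ▸ hd)
  have nab : a ≠ b := fun h => by rw [h] at hab; omega
  have nbc : b ≠ c := fun h => by rw [h] at hbc; omega
  have ncd : c ≠ d := fun h => by rw [h] at hcd; omega
  have nac : a ≠ c := fun h => by rw [h] at hab; omega
  have nbd : b ≠ d := fun h => by rw [h] at hbc; omega
  have nad : a ≠ d := fun h => by rw [h] at hab; omega
  have t1 := red3 hp hr hW ha hb hc hab hbc
  have t2 := red3 hp hr hW ha hb hd hab (hbc.trans hcd)
  have t3 := red3 hp hr hW ha hc hd (hab.trans hbc) hcd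
  have t4 := red3 hp hr hW hb hc hd hbc hcd
  have f1 := T_cons hp hao.symm nab.symm nac.symm nad.symm hbo.symm hco.symm hdo.symm nbc ncd nbd
  have f2 := T_cons hp hdo.symm nad nbd ncd hao.symm hbo.symm hco.symm nab nbc nac
  rw [ccw_T hp hao.symm nab.symm nac.symm nad.symm hbo.symm hco.symm hdo.symm nbc ncd nbd,
    ccw_T hp hbo.symm nab nbc.symm nbd.symm hao.symm hco.symm hdo.symm nac ncd nad,
    ccw_T hp hco.symm nac nbc ncd.symm hao.symm hbo.symm hdo.symm nab nbd nad,
    ccw_T hp hdo.symm nad nbd ncd hao.symm hbo.symm hco.symm nab nbc nac]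
  grind

/-- A quadruple with the signs plus, minus, minus, plus: the third vertex is a right exit of the triangle `a b d`. -/
theorem exR (hp : IsRotation pos) (hr : Realizable pos) {o : V} {W : Set V} (hW : Red pos o W)
    {a b c d : V} (ha : a ∈ W) (hb : b ∈ W) (hc : c ∈ W) (hd : d ∈ W) (hab : pos o a < pos o b)
    (hbc : pos o b < pos o c) (hcd : pos o c < pos o d) (s1 : Ccw pos a o b c)
    (s2 : ¬ Ccw pos a o b d) (s3 : ¬ Ccw pos a o c d) (s4 : Ccw pos b o c d) :
    Exits pos a d b c ∧ Exits pos a d c b := by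
  have nab : a ≠ b := fun h => by rw [h] at hab; omega
  have nbc : b ≠ c := fun h => by rw [h] at hbc; omega
  have ncd : c ≠ d := fun h => by rw [h] at hcd; omega
  have nac : a ≠ c := fun h => by rw [h] at hab; omega
  have nbd : b ≠ d := fun h => by rw [h] at hbc; omega
  have nad : a ≠ d := fun h => by rw [h] at hab; omega
  obtain ⟨k1, k2, k3, k4, -⟩ := redK hp hr hW ha hb hc hd hab hbc hcd
  have w1 : Ccw pos a d c b ↔ ¬ Ccw pos a b c d := by
    rw [← ccw_swap' hp nab.symm nac.symm nad.symm nbc ncd nbd]; unfold Ccw; omega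
  have w2 : Ccw pos d b c a ↔ Ccw pos d a b c := by unfold Ccw; omega
  have w3 : Ccw pos a d b c ↔ Ccw pos a b c d := by unfold Ccw; omega
  have w4 : Ccw pos d c b a ↔ ¬ Ccw pos d a b c := by
    rw [← ccw_swap' hp nad nbd ncd nab nbc nac]; unfold Ccw; omega
  have w5 : Ccw pos c a b d ↔ Ccw pos c a b d := Iff.rfl
  unfold Exits
  grind

/-- Left exits. -/
theorem exL (hp : IsRotation pos) (hr : Realizable pos) {o : V} {W : Set V} (hW : Red pos o W)
    {a b c d : V} (ha : a ∈ W) (hb : b ∈ W) (hc : c ∈ W) (hd : d ∈ W) (hab : pos o a < pos o b)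
    (hbc : pos o b < pos o c) (hcd : pos o c < pos o d) :
    (¬ Ccw pos a o b d → Ccw pos a o c d → Exits pos a b d c) ∧
    (Ccw pos a o b d → ¬ Ccw pos a o c d → Exits pos a c d b) ∧
    (¬ Ccw pos a o b c → ¬ Ccw pos a o b d → ¬ Ccw pos a o c d → ¬ Ccw pos b o c d →
      Exits pos a b c d) ∧
    (¬ Ccw pos a o b c → Ccw pos a o b d → Ccw pos a o c d → ¬ Ccw pos b o c d →
      Exits pos a b d c) := by
  have nab : a ≠ b := fun h => by rw [h] at hab; omega
  have nbc : b ≠ c := fun h => by rw [h] at hbc; omega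
  have ncd : c ≠ d := fun h => by rw [h] at hcd; omega
  have nac : a ≠ c := fun h => by rw [h] at hab; omega
  have nbd : b ≠ d := fun h => by rw [h] at hbc; omega
  have nad : a ≠ d := fun h => by rw [h] at hab; omega
  obtain ⟨k1, k2, k3, k4, k5⟩ := redK hp hr hW ha hb hc hd hab hbc hcd
  have w1 : Ccw pos b d c a ↔ ¬ Ccw pos b a c d := by
    rw [← ccw_swap' hp nab nbc.symm nbd.symm nac ncd nad]; unfold Ccw; omega
  have w2 : Ccw pos d a c b ↔ ¬ Ccw pos d a b c :=
    ccw_swap' hp nad nbd ncd nab nbc nac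
  have w3 : Ccw pos a c b d ↔ ¬ Ccw pos a b c d := by
    rw [← ccw_swap' hp nab.symm nac.symm nad.symm nbc ncd nbd]; unfold Ccw; omega
  have w4 : Ccw pos c d b a ↔ ¬ Ccw pos c a b d := by
    rw [← ccw_swap' hp nac nbc ncd.symm nab nbd nad]; unfold Ccw; omega
  have w5 : Ccw pos a b d c ↔ ¬ Ccw pos a b c d :=
    ccw_swap' hp nab.symm nac.symm nad.symm nbc ncd nbd
  have w6 : Ccw pos b c d a ↔ Ccw pos b a c d := by unfold Ccw; omega
  have w7 : Ccw pos c a d b ↔ ¬ Ccw pos c a b d :=
    ccw_swap' hp nac nbc ncd.symm nab nbd nad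
  unfold Exits
  grind

/-- `o` is a right exit. -/
theorem exO (hp : IsRotation pos) (hr : Realizable pos) {o : V} {W : Set V} (hW : Red pos o W)
    {a b d : V} (ha : a ∈ W) (hb : b ∈ W) (hd : d ∈ W) (hab : pos o a < pos o b)
    (hbd : pos o b < pos o d) (s2 : Ccw pos a o b d) : Exits pos a d b o := by
  have hao : a ≠ o := fun h => hW.1 (h ▸ ha)
  have hbo : b ≠ o := fun h => hW.1 (h ▸ hb)
  have hdo : d ≠ o := fun h => hW.1 (h ▸ hd)
  have nab : a ≠ b := fun h => by rw [h] at hab; omega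
  have nbd : b ≠ d := fun h => by rw [h] at hbd; omega
  have nad : a ≠ d := fun h => by rw [h] at hab; omega
  obtain ⟨t1, t2⟩ := red3 hp hr hW ha hb hd hab hbd
  have w1 : Ccw pos a d o b ↔ Ccw pos a o b d := by unfold Ccw; omega
  have w2 : Ccw pos d b o a ↔ Ccw pos d o a b := by unfold Ccw; omega
  have w3 : Ccw pos b a o d ↔ ¬ Ccw pos b o a d := by
    rw [← ccw_swap' hp hbo.symm nab nbd.symm hao.symm nad hdo.symm]; unfold Ccw; omega
  unfold Exits
  grind

/-- A monochromatic quadruple is in convex position. -/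
theorem mono_convex (hp : IsRotation pos) (hr : Realizable pos) {o : V} {W : Set V}
    (hW : Red pos o W) {a b c d : V} (ha : a ∈ W) (hb : b ∈ W) (hc : c ∈ W) (hd : d ∈ W)
    (hab : pos o a < pos o b) (hbc : pos o b < pos o c) (hcd : pos o c < pos o d)
    (h : (Ccw pos a o b c ∧ Ccw pos a o b d ∧ Ccw pos a o c d ∧ Ccw pos b o c d) ∨
      (¬ Ccw pos a o b c ∧ ¬ Ccw pos a o b d ∧ ¬ Ccw pos a o c d ∧ ¬ Ccw pos b o c d)) :
    Crossed pos a c b d := by
  have nab : a ≠ b := fun h => by rw [h] at hab; omega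
  have nbc : b ≠ c := fun h => by rw [h] at hbc; omega
  have ncd : c ≠ d := fun h => by rw [h] at hcd; omega
  have nac : a ≠ c := fun h => by rw [h] at hab; omega
  have nbd : b ≠ d := fun h => by rw [h] at hbc; omega
  have nad : a ≠ d := fun h => by rw [h] at hab; omega
  obtain ⟨k1, k2, k3, k4, k5⟩ := redK hp hr hW ha hb hc hd hab hbc hcd
  rw [crossed_iff2 hp nab nac nad nbc nbd ncd]
  grind

/-- The rules `RS` hold in a set without blue pairs of a convex rotation system. -/
theorem red_rs (hp : IsRotation pos) (hr : Realizable pos) (hcv : Convex pos) {o : V}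
    {W : Set V} (hW : Red pos o W) (g : ℕ → V) (S : Finset ℕ) (hg : ∀ i ∈ S, g i ∈ W)
    (hgo : ∀ i ∈ S, pos o (g i) = i) :
    RS S (fun i j k => Ccw pos (g i) o (g j) (g k)) := by
  have key : ∀ i ∈ S, ∀ j ∈ S, i < j → pos o (g i) < pos o (g j) := by
    intro i hi j hj hij
    rw [hgo i hi, hgo j hj]; exact hij
  have ne : ∀ i ∈ S, ∀ j ∈ S, i < j → g i ≠ g j := by
    intro i hi j hj hij h
    have := key i hi j hj hij
    rw [h] at this; omega
  have neo : ∀ i ∈ S, g i ≠ o := fun i hi h => hW.1 (h ▸ hg i hi)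
  constructor
  · intro a ha b hb c hc d hd hab hbc hcd h
    exact (redK hp hr hW (hg a ha) (hg b hb) (hg c hc) (hg d hd) (key a ha b hb hab)
      (key b hb c hc hbc) (key c hc d hd hcd)).2.2.2.2 h
  · rintro a ha b hb c hc d hd hab hbc hcd ⟨h1, h2, h3, h4⟩
    have l := (exL hp hr hW (hg a ha) (hg b hb) (hg c hc) (hg d hd) (key a ha b hb hab)
      (key b hb c hc hbc) (key c hc d hd hcd)).2.2.2 h1 h2 h3 h4
    have r := exO hp hr hW (hg a ha) (hg b hb) (hg d hd) (key a ha b hb hab)
      (key b hb d hd (hbc.trans hcd)) h2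
    exact hcv (g a) (g b) (g d) (g c) o (ne a ha b hb hab) (ne a ha d hd (by omega))
      (ne b hb d hd (by omega)) (ne a ha c hc (by omega)).symm (ne b hb c hc hbc).symm
      (ne c hc d hd hcd) (neo a ha).symm (neo b hb).symm (neo d hd).symm ⟨l, r⟩
  · intro a ha b hb c hc d hd e he hab hbc hcd hde h1 h2 h3
    by_contra h4
    have k1 := (redK hp hr hW (hg a ha) (hg b hb) (hg c hc) (hg d hd) (key a ha b hb hab)
      (key b hb c hc hbc) (key c hc d hd hcd)).2.2.2.2
    have k2 := (redK hp hr hW (hg a ha) (hg b hb) (hg d hd) (hg e he) (key a ha b hb hab)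
      (key b hb d hd (by omega)) (key d hd e he hde)).2.2.2.2
    have hacd : ¬ Ccw pos (g a) o (g c) (g d) := by grind
    have r := (exR hp hr hW (hg a ha) (hg b hb) (hg c hc) (hg d hd) (key a ha b hb hab)
      (key b hb c hc hbc) (key c hc d hd hcd) h1 h2 hacd h3).1
    have l : Exits pos (g a) (g b) (g d) (g e) := by
      have l := exL hp hr hW (hg a ha) (hg b hb) (hg d hd) (hg e he) (key a ha b hb hab)
        (key b hb d hd (by omega)) (key d hd e he hde)
      by_cases h5 : Ccw pos (g a) o (g b) (g e)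
      · by_cases h6 : Ccw pos (g a) o (g d) (g e)
        · -- this pattern is excluded
          exfalso
          have l' := l.2.2.2 h2 h5 h6 h4
          have r' := exO hp hr hW (hg a ha) (hg b hb) (hg e he) (key a ha b hb hab)
            (key b hb e he (by omega)) h5
          exact hcv (g a) (g b) (g e) (g d) o (ne a ha b hb hab) (ne a ha e he (by omega))
            (ne b hb e he (by omega)) (ne a ha d hd (by omega)).symm
            (ne b hb d hd (by omega)).symm (ne d hd e he hde) (neo a ha).symm (neo b hb).symm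
            (neo e he).symm ⟨l', r'⟩
        · exfalso
          grind
      · have h6 : ¬ Ccw pos (g a) o (g d) (g e) := by grind
        exact l.2.2.1 h2 h5 h6 h4
    exact hcv (g a) (g b) (g d) (g e) (g c) (ne a ha b hb hab) (ne a ha d hd (by omega))
      (ne b hb d hd (by omega)) (ne a ha e he (by omega)).symm (ne b hb e he (by omega)).symm
      (ne d hd e he hde).symm (ne a ha c hc (by omega)).symm (ne b hb c hc hbc).symm
      (ne c hc d hd hcd) ⟨l, r⟩
  · intro a ha b hb c hc d hd e he hab hbc hcd hde h1 h2 h3 h4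
    have k1 := (redK hp hr hW (hg a ha) (hg b hb) (hg c hc) (hg e he) (key a ha b hb hab)
      (key b hb c hc hbc) (key c hc e he (by omega))).2.2.2.2
    have hace : ¬ Ccw pos (g a) o (g c) (g e) := by grind
    have r := (exR hp hr hW (hg a ha) (hg b hb) (hg c hc) (hg e he) (key a ha b hb hab)
      (key b hb c hc hbc) (key c hc e he (by omega)) h1 h2 hace h3).1
    have l := (exL hp hr hW (hg a ha) (hg b hb) (hg d hd) (hg e he) (key a ha b hb hab)
        (key b hb d hd (by omega)) (key d hd e he hde)).1 h2 h4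
    exact hcv (g a) (g b) (g e) (g d) (g c) (ne a ha b hb hab) (ne a ha e he (by omega))
      (ne b hb e he (by omega)) (ne a ha d hd (by omega)).symm (ne b hb d hd (by omega)).symm
      (ne d hd e he hde) (ne a ha c hc (by omega)).symm (ne b hb c hc hbc).symm
      (ne c hc e he (by omega)) ⟨l, r⟩
  · intro a ha b hb c hc d hd e he hab hbc hcd hde h1 h2 h3 h4
    have k1 := (redK hp hr hW (hg a ha) (hg c hc) (hg d hd) (hg e he) (key a ha c hc (by omega))
      (key c hc d hd hcd) (key d hd e he hde)).2.2.2.2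
    have hade : ¬ Ccw pos (g a) o (g d) (g e) := by grind
    have r := (exR hp hr hW (hg a ha) (hg c hc) (hg d hd) (hg e he) (key a ha c hc (by omega))
      (key c hc d hd hcd) (key d hd e he hde) h2 h3 hade h4).1
    have l := (exL hp hr hW (hg a ha) (hg b hb) (hg c hc) (hg e he) (key a ha b hb hab)
        (key b hb c hc hbc) (key c hc e he (by omega))).2.1 h1 h3
    exact hcv (g a) (g c) (g e) (g b) (g d) (ne a ha c hc (by omega)) (ne a ha e he (by omega))
      (ne c hc e he (by omega)) (ne a ha b hb hab).symm (ne b hb c hc hbc)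
      (ne b hb e he (by omega)) (ne a ha d hd (by omega)).symm (ne c hc d hd hcd).symm
      (ne d hd e he hde) ⟨l, r⟩
  · intro a ha b hb c hc d hd e he hab hbc hcd hde h1 h2 h3 h4
    have k1 := (redK hp hr hW (hg a ha) (hg b hb) (hg d hd) (hg e he) (key a ha b hb hab)
      (key b hb d hd (by omega)) (key d hd e he hde)).2.2.2.2
    have hade : ¬ Ccw pos (g a) o (g d) (g e) := by grind
    have r := (exR hp hr hW (hg a ha) (hg b hb) (hg d hd) (hg e he) (key a ha b hb hab)
      (key b hb d hd (by omega)) (key d hd e he hde) h1 h2 hade h3).1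
    have l := (exL hp hr hW (hg a ha) (hg b hb) (hg c hc) (hg e he) (key a ha b hb hab)
        (key b hb c hc hbc) (key c hc e he (by omega))).1 h2 h4
    exact hcv (g a) (g b) (g e) (g c) (g d) (ne a ha b hb hab) (ne a ha e he (by omega))
      (ne b hb e he (by omega)) (ne a ha c hc (by omega)).symm (ne b hb c hc hbc).symm
      (ne c hc e he (by omega)) (ne a ha d hd (by omega)).symm (ne b hb d hd (by omega)).symm
      (ne d hd e he hde) ⟨l, r⟩

end CV21
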