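import Mathlib
import Pool.Agent.CV21.Blue
import Pool.Agent.CV21.Red
import Pool.Agent.CV21.Mirsky
import Pool.Agent.CV21.Mono

/-!
# The theorem for convex rotation systems
-/

namespace CV21

open H83XR

variable {V : Type*} {pos : V → V → ℕ}

theorem core [Fintype V] (hp : IsRotation pos) (hr : Realizable pos) (hcv : Convex pos) (n : ℕ)
    (hV : (n + 1) * (8 ^ n * Nat.choose (2 * n) n) + 1 < Fintype.card V) :
    ∃ x : Fin (n + 2) → V, Function.Injective x ∧
      ∀ i j k l, i < j → j < k → k < l → Crossed pos (x i) (x k) (x j) (x l) := by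
  classical
  obtain ⟨o⟩ : Nonempty V := Fintype.card_pos_iff.1 (by omega)
  set P : Finset V := Finset.univ.erase o with hP
  have hPo : ∀ x ∈ P, x ≠ o := fun x hx => Finset.ne_of_mem_erase hx
  have hinj : ∀ x ∈ P, ∀ y ∈ P, pos o x = pos o y → x = y := fun x hx y hy h =>
    hp o x y (hPo x hx) (hPo y hy) h
  set S : Finset ℕ := P.image (pos o) with hS
  have hScard : S.card = Fintype.card V - 1 := by
    rw [hS, Finset.card_image_of_injOn (fun x hx y hy h => hinj x hx y hy h), hP,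
      Finset.card_erase_of_mem (Finset.mem_univ o), Finset.card_univ]
  have hex : ∀ i : ℕ, ∃ x : V, i ∈ S → (x ∈ P ∧ pos o x = i) := by
    intro i
    by_cases hi : i ∈ S
    · obtain ⟨x, hx, hxi⟩ := Finset.mem_image.1 hi
      exact ⟨x, fun _ => ⟨hx, hxi⟩⟩
    · exact ⟨o, fun h => absurd h hi⟩
  choose g hg using hex
  have hgo : ∀ i ∈ S, pos o (g i) = i := fun i hi => (hg i hi).2
  have hgn : ∀ i ∈ S, g i ≠ o := fun i hi => hPo _ (hg i hi).1
  have key : ∀ i ∈ S, ∀ j ∈ S, i < j → pos o (g i) < pos o (g j) := by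
    intro i hi j hj hij
    rw [hgo i hi, hgo j hj]; exact hij
  have hne : ∀ i ∈ S, ∀ j ∈ S, i < j → g i ≠ g j := by
    intro i hi j hj hij h
    have := key i hi j hj hij
    rw [h] at this; omega
  have gi : ∀ i ∈ S, ∀ j ∈ S, g i = g j → i = j := by
    intro i hi j hj h
    rw [← hgo i hi, ← hgo j hj, h]
  -- from a set of indices to the conclusion
  have fin : ∀ Q ⊆ S, Q.card = n + 2 → (∀ a ∈ Q, ∀ b ∈ Q, ∀ c ∈ Q, ∀ d ∈ Q, a < b → b < c →
      c < d → Crossed pos (g a) (g c) (g b) (g d)) →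
      ∃ x : Fin (n + 2) → V, Function.Injective x ∧
        ∀ i j k l, i < j → j < k → k < l → Crossed pos (x i) (x k) (x j) (x l) := by
    intro Q hQS hQ h
    refine ⟨fun i => g (Q.orderEmbOfFin hQ i), ?_, ?_⟩
    · intro i j hij
      have := gi _ (hQS (Q.orderEmbOfFin_mem hQ i)) _ (hQS (Q.orderEmbOfFin_mem hQ j)) hij
      exact (Q.orderEmbOfFin hQ).injective this
    · intro i j k l hij hjk hkl
      exact h _ (Q.orderEmbOfFin_mem hQ i) _ (Q.orderEmbOfFin_mem hQ j) _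
        (Q.orderEmbOfFin_mem hQ k) _ (Q.orderEmbOfFin_mem hQ l)
        ((Q.orderEmbOfFin hQ).strictMono hij) ((Q.orderEmbOfFin hQ).strictMono hjk)
        ((Q.orderEmbOfFin hQ).strictMono hkl)
  rcases mirsky S (fun i j => ∃ z, z ≠ o ∧ z ≠ g i ∧ z ≠ g j ∧ Exits pos o (g i) (g j) z)
    (fun a ha b hb c hc hab hbc h1 h2 => blue_trans hp hr hcv (hgn a ha) (hgn b hb) (hgn c hc)
      (key a ha b hb hab) (key b hb c hc hbc) h1 h2) (n + 1) (8 ^ n * Nat.choose (2 * n) n)
    (by rw [hScard]; omega) with ⟨Q, hQS, hQ, hR⟩ | ⟨Q, hQS, hQ, hR⟩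
  · -- a chain of blue pairs
    refine fin Q hQS hQ ?_
    intro a ha b hb c hc d hd hab hbc hcd
    refine blue_convex hp hr (hgn a (hQS ha)) (hgn b (hQS hb)) (hgn c (hQS hc)) (hgn d (hQS hd))
      (key a (hQS ha) b (hQS hb) hab) (key b (hQS hb) c (hQS hc) hbc)
      (key c (hQS hc) d (hQS hd) hcd) ?_
    have hsub : ∀ x ∈ ({g a, g b, g c, g d} : Set V), ∃ i ∈ Q, x = g i := by
      intro x hx
      simp only [Set.mem_insert_iff, Set.mem_singleton_iff] at hx
      rcases hx with h | h | h | h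
      · exact ⟨a, ha, h⟩
      · exact ⟨b, hb, h⟩
      · exact ⟨c, hc, h⟩
      · exact ⟨d, hd, h⟩
    intro x hx y hy hxy z hz hzx hzy hex
    obtain ⟨i, hi, rfl⟩ := hsub x hx
    obtain ⟨j, hj, rfl⟩ := hsub y hy
    obtain ⟨k, hk, rfl⟩ := hsub z hz
    have hij : i < j := by
      rw [hgo i (hQS hi), hgo j (hQS hj)] at hxy; exact hxy
    obtain ⟨e, he1, he2, he3, he4⟩ := hR i hi j hj hij
    exact hcv o (g i) (g j) e (g k) (hgn i (hQS hi)).symm (hgn j (hQS hj)).symm
      (hne i (hQS hi) j (hQS hj) hij) he1 he2 he3 (hgn k (hQS hk)) hzx hzy ⟨he4, hex⟩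
  · -- a set without blue pairs
    set W : Set V := {x | ∃ i ∈ Q, x = g i} with hW
    have hred : Red pos o W := by
      refine ⟨?_, ?_⟩
      · rintro ⟨i, hi, h⟩
        exact hgn i (hQS hi) h.symm
      · rintro x ⟨i, hi, rfl⟩ y ⟨j, hj, rfl⟩ hxy z ⟨k, hk, rfl⟩ hzx hzy hex
        have hij : i < j := by
          rw [hgo i (hQS hi), hgo j (hQS hj)] at hxy; exact hxy
        exact hR i hi j hj hij ⟨g k, hgn k (hQS hk), hzx, hzy, hex⟩
    have hgW : ∀ i ∈ Q, g i ∈ W := fun i hi => ⟨i, hi, rfl⟩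
    have hrs := red_rs hp hr hcv hred g Q hgW (fun i hi => hgo i (hQS hi))
    obtain ⟨Q', hQ'Q, hQ', hm⟩ := mono Q _ hrs n hQ
    refine fin Q' (hQ'Q.trans hQS) hQ' ?_
    intro a ha b hb c hc d hd hab hbc hcd
    have ha' := hQ'Q ha
    have hb' := hQ'Q hb
    have hc' := hQ'Q hc
    have hd' := hQ'Q hd
    refine mono_convex hp hr hred (hgW a ha') (hgW b hb') (hgW c hc') (hgW d hd')
      (key a (hQS ha') b (hQS hb') hab) (key b (hQS hb') c (hQS hc') hbc)
      (key c (hQS hc') d (hQS hd') hcd) ?_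
    rcases hm with hm | hm
    · exact Or.inl ⟨hm a ha b hb c hc hab hbc, hm a ha b hb d hd hab (hbc.trans hcd),
        hm a ha c hc d hd (hab.trans hbc) hcd, hm b hb c hc d hd hbc hcd⟩
    · exact Or.inr ⟨hm a ha b hb c hc hab hbc, hm a ha b hb d hd hab (hbc.trans hcd),
        hm a ha c hc d hd (hab.trans hbc) hcd, hm b hb c hc d hd hbc hcd⟩

theorem arith (m : ℕ) : (m + 1) * 32 ^ m + 2 ≤ 33 ^ (m + 2) := by
  induction m with
  | zero => norm_num
  | succ k ih =>
    have h1 : 32 ^ (k + 1) ≤ 33 ^ (k + 2) :=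
      (Nat.pow_le_pow_left (by norm_num) _).trans (Nat.pow_le_pow_right (by norm_num) (by omega))
    have e1 : (k + 1 + 1) * 32 ^ (k + 1) = 32 * ((k + 1) * 32 ^ k) + 32 ^ (k + 1) := by ring
    have e2 : 33 ^ (k + 1 + 2) = 32 * 33 ^ (k + 2) + 33 ^ (k + 2) := by ring
    rw [e1, e2]
    omega

theorem main [Fintype V] (hp : IsRotation pos) (hr : Realizable pos) (hcv : Convex pos) (n : ℕ)
    (hV : 33 ^ n ≤ Fintype.card V) :
    ∃ x : Fin n → V, Function.Injective x ∧
      ∀ i j k l, i < j → j < k → k < l → Crossed pos (x i) (x k) (x j) (x l) := by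
  match n, hV with
  | 0, _ => exact ⟨fun i => i.elim0, fun i => i.elim0, fun i => i.elim0⟩
  | 1, hV =>
    obtain ⟨v⟩ : Nonempty V := Fintype.card_pos_iff.1 (by omega)
    refine ⟨fun _ => v, fun i j _ => Subsingleton.elim i j, ?_⟩
    intro i j k l hij
    exact absurd hij (by rw [Subsingleton.elim i j]; exact lt_irrefl _)
  | m + 2, hV =>
    refine core hp hr hcv m (lt_of_lt_of_le ?_ hV)
    have h1 : Nat.choose (2 * m) m ≤ 4 ^ m := by
      have := Nat.choose_le_two_pow (2 * m) m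
      rw [pow_mul] at this
      simpa using this
    have h2 : 8 ^ m * Nat.choose (2 * m) m ≤ 32 ^ m := by
      calc 8 ^ m * Nat.choose (2 * m) m ≤ 8 ^ m * 4 ^ m := Nat.mul_le_mul_left _ h1
        _ = 32 ^ m := by rw [← mul_pow]; norm_num
    have h3 := arith m
    have h4 : (m + 1) * (8 ^ m * Nat.choose (2 * m) m) ≤ (m + 1) * 32 ^ m :=
      Nat.mul_le_mul_left _ h2
    omega

end CV21
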